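import Mathlib

set_option autoImplicit false

namespace Pool.Agent.V1179.Peak

open Filter Topology

/-- `log₂ N + 1`. -/
def el (N : ℕ) : ℕ := Nat.log 2 N + 1

theorem el_pos (N : ℕ) : (0 : ℝ) < el N := by unfold el; positivity

theorem el_one (N : ℕ) : (1 : ℝ) ≤ el N := by
  unfold el; push_cast
  have : (0 : ℝ) ≤ (Nat.log 2 N : ℝ) := Nat.cast_nonneg _
  linarith

theorem el_mono {m n : ℕ} (h : m ≤ n) : (el m : ℝ) ≤ el n := by
  unfold el
  have := Nat.log_mono_right (b := 2) h
  exact_mod_cast Nat.add_le_add_right this 1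

/-- The base sequence. -/
noncomputable def s (n : ℕ) : ℝ := ((n : ℝ) + 1) * (el (n + 1) : ℝ) ^ 2

theorem s_gap {m n : ℕ} (h : m < n) : ((n : ℝ) - m) * (el (n + 1) : ℝ) ^ 2 ≤ s n - s m := by
  unfold s
  have h1 := el_mono (show m + 1 ≤ n + 1 by omega)
  have h2 := el_pos (m + 1)
  have h3 : (el (m + 1) : ℝ) ^ 2 ≤ (el (n + 1) : ℝ) ^ 2 := by gcongr
  have h4 : (0 : ℝ) ≤ m := Nat.cast_nonneg m
  nlinarith

theorem s_pos (n : ℕ) : 1 ≤ s n := by
  unfold s
  have h1 := el_one (n + 1)
  have h4 : (0 : ℝ) ≤ n := Nat.cast_nonneg n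
  nlinarith

theorem s_strictMono : StrictMono s := by
  intro m n h
  have h1 := s_gap h
  have h2 : (0 : ℝ) < (n : ℝ) - m := by
    have : (m : ℝ) < n := by exact_mod_cast h
    linarith
  have h3 := el_pos (n + 1)
  have : 0 < ((n : ℝ) - m) * (el (n + 1) : ℝ) ^ 2 := by positivity
  linarith

/-- `1 / (j (log j)²)`. -/
noncomputable def g (j : ℕ) : ℝ := 1 / ((j : ℝ) * (el j : ℝ) ^ 2)

theorem g_nonneg (j : ℕ) : 0 ≤ g j := by unfold g; positivity

theorem el_two_pow (k : ℕ) : el (2 ^ k) = k + 1 := by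
  unfold el
  rw [Nat.log_pow (by norm_num)]

theorem g_summable : Summable g := by
  rw [← summable_condensed_iff_of_nonneg g_nonneg]
  · have h1 : Summable fun k : ℕ => 1 / ((k + 1 : ℕ) : ℝ) ^ 2 :=
      (summable_nat_add_iff 1).2 (Real.summable_one_div_nat_pow.2 (by norm_num))
    refine h1.congr fun k => ?_
    unfold g
    rw [el_two_pow]
    push_cast
    field_simp
  · intro m n hm hmn
    unfold g
    have h1 : (0 : ℝ) < m := by exact_mod_cast hm
    have h2 : (m : ℝ) ≤ n := by exact_mod_cast hmn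
    have h3 := el_mono hmn
    have h4 := el_pos m
    gcongr

/-- The sum over the integers. -/
noncomputable def GG : ℝ := ∑' k : ℤ, g k.natAbs

theorem gz_summable : Summable fun k : ℤ => g k.natAbs := by
  apply Summable.of_nat_of_neg
  · simpa using g_summable
  · simpa using g_summable

theorem GG_nonneg : 0 ≤ GG := tsum_nonneg fun _ => g_nonneg _

theorem inv_le (m n : ℕ) (h : m ≠ n) : 1 / |s m - s n| ≤ g ((m : ℤ) - n).natAbs := by
  rcases lt_or_gt_of_ne h with h | h
  · have h1 := s_gap h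
    have h2 : ((m : ℤ) - n).natAbs = n - m := by omega
    have h3 : (0 : ℝ) < (n : ℝ) - m := by
      have : (m : ℝ) < n := by exact_mod_cast h
      linarith
    have h4 := el_mono (show n - m ≤ n + 1 by omega)
    have h5 := el_pos (n - m)
    have h6 : 0 < ((n : ℝ) - m) * (el (n - m) : ℝ) ^ 2 := by positivity
    have h7 : ((n : ℝ) - m) * (el (n - m) : ℝ) ^ 2 ≤ ((n : ℝ) - m) * (el (n + 1) : ℝ) ^ 2 := by
      gcongr
    rw [h2, abs_sub_comm, abs_of_pos (by linarith)]
    unfold g
    rw [Nat.cast_sub h.le]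
    apply one_div_le_one_div_of_le h6
    linarith
  · have h1 := s_gap h
    have h2 : ((m : ℤ) - n).natAbs = m - n := by omega
    have h3 : (0 : ℝ) < (m : ℝ) - n := by
      have : (n : ℝ) < m := by exact_mod_cast h
      linarith
    have h4 := el_mono (show m - n ≤ m + 1 by omega)
    have h5 := el_pos (m - n)
    have h6 : 0 < ((m : ℝ) - n) * (el (m - n) : ℝ) ^ 2 := by positivity
    have h7 : ((m : ℝ) - n) * (el (m - n) : ℝ) ^ 2 ≤ ((m : ℝ) - n) * (el (m + 1) : ℝ) ^ 2 := by
      gcongr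
    rw [h2, abs_of_pos (by linarith)]
    unfold g
    rw [Nat.cast_sub h.le]
    apply one_div_le_one_div_of_le h6
    linarith

/-- The scale. -/
noncomputable def Lam : ℝ := 2000 * (GG + 1)

theorem Lam_ge : 2000 ≤ Lam := by
  unfold Lam
  have := GG_nonneg
  linarith

/-- The sequence. -/
noncomputable def y (n : ℕ) : ℝ := Lam * s n

theorem y_ge (n : ℕ) : 2000 ≤ y n := by
  unfold y
  have h1 := Lam_ge
  have h2 := s_pos n
  nlinarith

theorem y_pos (n : ℕ) : 0 < y n := by linarith [y_ge n]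

theorem y_ge_nat (n : ℕ) : (n : ℝ) + 1 ≤ y n := by
  unfold y s
  have h1 := Lam_ge
  have h2 := el_one (n + 1)
  have h4 : (0 : ℝ) ≤ n := Nat.cast_nonneg n
  have h3 : 1 ≤ (el (n + 1) : ℝ) ^ 2 := by nlinarith
  have h5 : (n : ℝ) + 1 ≤ ((n : ℝ) + 1) * (el (n + 1) : ℝ) ^ 2 := by nlinarith
  nlinarith

theorem y_strictMono : StrictMono y := by
  intro m n h
  unfold y
  have := s_strictMono h
  have h1 := Lam_ge
  nlinarith

theorem y_tendsto : Tendsto y atTop atTop := by
  apply tendsto_atTop_mono (fun n => (y_ge_nat n))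
  exact tendsto_atTop_add_const_right _ _ tendsto_natCast_atTop_atTop

theorem y_inv_le (m n : ℕ) (h : m ≠ n) :
    1 / |y m - y n| ≤ Lam⁻¹ * g ((m : ℤ) - n).natAbs := by
  have h1 := inv_le m n h
  have hL : 0 < Lam := by linarith [Lam_ge]
  unfold y
  rw [← mul_sub, abs_mul, abs_of_pos hL, one_div, mul_inv]
  rw [one_div] at h1
  gcongr

theorem y_sum (n : ℕ) : Summable (fun m : ℕ => if m = n then (0 : ℝ) else 1 / |y m - y n|) ∧
    ∑' m : ℕ, (if m = n then (0 : ℝ) else 1 / |y m - y n|) ≤ 1 / 2000 := by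
  have hL : 0 < Lam := by linarith [Lam_ge]
  have hinj : Function.Injective fun m : ℕ => (m : ℤ) - n := by
    intro a b h
    simp only at h
    omega
  have h1 : Summable fun m : ℕ => Lam⁻¹ * g ((m : ℤ) - n).natAbs :=
    (gz_summable.comp_injective hinj).mul_left _
  have hle : ∀ m : ℕ, (if m = n then (0 : ℝ) else 1 / |y m - y n|) ≤
      Lam⁻¹ * g ((m : ℤ) - n).natAbs := by
    intro m
    split_ifs with h
    · have := g_nonneg ((m : ℤ) - n).natAbs
      positivity
    · exact y_inv_le m n h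
  have h2 : Summable (fun m : ℕ => if m = n then (0 : ℝ) else 1 / |y m - y n|) := by
    apply Summable.of_nonneg_of_le _ hle h1
    intro m
    split_ifs
    · exact le_rfl
    · positivity
  refine ⟨h2, ?_⟩
  calc ∑' m : ℕ, (if m = n then (0 : ℝ) else 1 / |y m - y n|)
      ≤ ∑' m : ℕ, Lam⁻¹ * g ((m : ℤ) - n).natAbs := h2.tsum_le_tsum hle h1
    _ = Lam⁻¹ * ∑' m : ℕ, g ((m : ℤ) - n).natAbs := tsum_mul_left
    _ ≤ Lam⁻¹ * GG := by
        have := tsum_comp_le_tsum_of_inj gz_summable (fun k => g_nonneg _) hinj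
        gcongr
        exact this
    _ ≤ 1 / 2000 := by
        rw [inv_mul_le_iff₀ hL]
        unfold Lam
        have := GG_nonneg
        linarith

theorem inv_y_summable : Summable fun n => 1 / y n := by
  have hL : 0 < Lam := by linarith [Lam_ge]
  have h1 : Summable fun n : ℕ => Lam⁻¹ * g (n + 1) :=
    ((summable_nat_add_iff 1).2 g_summable).mul_left _
  refine h1.congr fun n => ?_
  unfold y s g
  push_cast
  rw [one_div, one_div, mul_inv, mul_inv, mul_inv]

/-- Divergence. -/
theorem not_summable : ¬ Summable fun n : ℕ => Real.sqrt ((y (n + 1) - y n) / (y n * y (n + 1))) := by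
  intro hs
  have hL : 0 < Lam := by linarith [Lam_ge]
  set f : ℕ → ℝ := fun j => 1 / ((j : ℝ) * el j) with hf
  have hf0 : ∀ j, 0 ≤ f j := fun j => by simp only [hf]; positivity
  have h1 : ¬ Summable f := by
    rw [← summable_condensed_iff_of_nonneg hf0]
    · intro h
      have h2 : Summable fun k : ℕ => 1 / ((k + 1 : ℕ) : ℝ) := by
        refine h.congr fun k => ?_
        simp only [hf]
        rw [el_two_pow]
        push_cast
        field_simp
      exact Real.not_summable_one_div_natCast ((summable_nat_add_iff 1).1 h2)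
    · intro m n hm hmn
      simp only [hf]
      have h1 : (0 : ℝ) < m := by exact_mod_cast hm
      have h2 : (m : ℝ) ≤ n := by exact_mod_cast hmn
      have h3 := el_mono hmn
      have h4 := el_pos m
      gcongr
  apply h1
  rw [← summable_nat_add_iff 2]
  have h3 := hs.mul_left (Real.sqrt Lam)
  apply Summable.of_nonneg_of_le (fun n => hf0 _) _ h3
  intro n
  have hy := y_pos n
  have hy1 := y_pos (n + 1)
  have hyle := (y_strictMono (Nat.lt_succ_self n)).le
  have hgap : Lam * (el (n + 2) : ℝ) ^ 2 ≤ y (n + 1) - y n := by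
    have := s_gap (Nat.lt_succ_self n)
    unfold y
    push_cast at this
    have h5 : ((n : ℝ) + 1 - n) = 1 := by ring
    rw [Nat.succ_eq_add_one, h5, one_mul] at this
    nlinarith
  have hel := el_pos (n + 2)
  have h6 : (Lam * (el (n + 2) : ℝ) ^ 2) / (y (n + 1) * y (n + 1)) ≤
      (y (n + 1) - y n) / (y n * y (n + 1)) := by
    gcongr
  have h7 : Real.sqrt ((Lam * (el (n + 2) : ℝ) ^ 2) / (y (n + 1) * y (n + 1))) =
      Real.sqrt Lam * el (n + 2) / y (n + 1) := by
    rw [Real.sqrt_div' _ (by positivity), Real.sqrt_mul hL.le, Real.sqrt_sq hel.le,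
      Real.sqrt_mul_self hy1.le]
  have h8 := Real.sqrt_le_sqrt h6
  rw [h7] at h8
  have hsL := Real.sqrt_pos.2 hL
  calc f (n + 2) = Real.sqrt Lam * (Real.sqrt Lam * el (n + 2) / y (n + 1)) := by
        simp only [hf]
        unfold y s
        rw [← mul_div_assoc, ← mul_assoc, Real.mul_self_sqrt hL.le]
        push_cast
        field_simp
        ring
    _ ≤ _ := by gcongr

end Pool.Agent.V1179.Peak
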