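import Mathlib
import Pool.Agent.V1179.Peak.Seq

set_option autoImplicit false

namespace Pool.Agent.V1179.Peak

open Filter Topology Complex Set

/-- The elementary inequality behind the construction. -/
theorem lemA {x : ℂ} (hx : 0 ≤ x.im) (hx0 : x ≠ 0) :
    1 / 49 * (1 + 1 / ‖x‖) ≤ ‖1 - 1 / x - 1 / (x + I)‖ := by
  have hxI : x + I ≠ 0 := by
    intro h
    have := congrArg Complex.im h
    simp at this
    linarith
  set X := ‖x‖ with hX
  have hX0 : 0 < X := norm_pos_iff.2 hx0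
  set t : ℂ := x - 1 + I / 2 with ht
  have htim : t.im = x.im + 1 / 2 := by
    rw [ht]; simp
  have hN : 1 - 1 / x - 1 / (x + I) = (t ^ 2 - 3 / 4) / (x * (x + I)) := by
    rw [ht]
    field_simp
    ring_nf
    rw [I_sq]
    ring
  have ht2 : ‖t‖ ^ 2 = t.re ^ 2 + t.im ^ 2 := by
    rw [← Complex.normSq_eq_norm_sq, Complex.normSq_apply]; ring
  have hq : 1 / 2 ≤ t.im := by rw [htim]; linarith
  have hN2 : ‖t ^ 2 - 3 / 4‖ ^ 2 = (‖t‖ ^ 2) ^ 2 - 3 / 2 * (t.re ^ 2 - t.im ^ 2) + 9 / 16 := by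
    rw [← Complex.normSq_eq_norm_sq, Complex.normSq_apply, ht2]
    have h1 : (t ^ 2 - 3 / 4).re = t.re ^ 2 - t.im ^ 2 - 3 / 4 := by
      rw [pow_two]; simp; ring
    have h2 : (t ^ 2 - 3 / 4).im = 2 * t.re * t.im := by
      rw [pow_two]; simp; ring
    rw [h1, h2]
    ring
  have hQ : (‖t‖ ^ 2) ^ 2 / 2 ≤ ‖t ^ 2 - 3 / 4‖ ^ 2 := by
    rw [hN2]
    have h3 : 1 / 4 ≤ t.im ^ 2 := by nlinarith
    nlinarith [sq_nonneg (‖t‖ ^ 2 - 3 / 2)]
  have htn : 1 / 2 ≤ ‖t‖ := hq.trans ((le_abs_self _).trans (Complex.abs_im_le_norm t))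
  have hXt : 1 + X ≤ 21 / 4 * ‖t‖ := by
    have h4 : x = t + (1 - I / 2) := by rw [ht]; ring
    have h5 : ‖(1 : ℂ) - I / 2‖ ≤ 9 / 8 := by
      have h6 : ‖(1 : ℂ) - I / 2‖ ^ 2 = 5 / 4 := by
        rw [← Complex.normSq_eq_norm_sq, Complex.normSq_apply]
        simp
        norm_num
      nlinarith [norm_nonneg ((1 : ℂ) - I / 2)]
    have h7 : X ≤ ‖t‖ + 9 / 8 := by
      rw [hX, h4]
      exact (norm_add_le _ _).trans (by linarith)
    linarith
  have h8 : (1 + X) ^ 2 / 49 ≤ ‖t ^ 2 - 3 / 4‖ := by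
    have h9 : (1 + X) ^ 2 ≤ (21 / 4 * ‖t‖) ^ 2 := by gcongr
    have h10 : ((1 + X) ^ 2 / 49) ^ 2 ≤ ‖t ^ 2 - 3 / 4‖ ^ 2 := by
      refine le_trans ?_ hQ
      have h11 : (1 + X) ^ 2 / 49 ≤ (9 / 16) * ‖t‖ ^ 2 := by nlinarith
      calc ((1 + X) ^ 2 / 49) ^ 2 ≤ ((9 / 16) * ‖t‖ ^ 2) ^ 2 := by gcongr
        _ ≤ (‖t‖ ^ 2) ^ 2 / 2 := by nlinarith [sq_nonneg (‖t‖ ^ 2)]
    exact (pow_le_pow_iff_left₀ (by positivity) (norm_nonneg _) (by norm_num)).1 h10
  have h12 : ‖x + I‖ ≤ X + 1 := by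
    refine (norm_add_le _ _).trans ?_
    simp [hX]
  have h13 : 0 < ‖x + I‖ := norm_pos_iff.2 hxI
  rw [hN, norm_div, norm_mul, ← hX, le_div_iff₀ (by positivity)]
  calc 1 / 49 * (1 + 1 / X) * (X * ‖x + I‖) ≤ 1 / 49 * (1 + 1 / X) * (X * (X + 1)) := by gcongr
    _ = (1 + X) ^ 2 / 49 := by field_simp; ring
    _ ≤ _ := h8

/-- The kernel. -/
noncomputable def k (b z : ℂ) : ℂ := (1 - b * z)⁻¹

/-- The conjugate of the `n`-th point. -/
noncomputable def cc (n : ℕ) : ℂ := (y n + I) / (y n - I)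

/-- The `n`-th point. -/
noncomputable def xx (n : ℕ) : ℂ := (y n - I) / (y n + I)

noncomputable def bb (n : ℕ) : ℂ := y n / (y n - 2 * I)

noncomputable def gn (n : ℕ) (z : ℂ) : ℂ := ((2 / y n : ℝ) : ℂ) * (k (cc n) z + k (bb n) z)

noncomputable def h (z : ℂ) : ℂ := 2 * k 1 z + ∑' n, gn n z

noncomputable def un (n : ℕ) (z : ℂ) : ℝ := (2 / y n) * (‖k (cc n) z‖ + ‖k (bb n) z‖)

noncomputable def U (z : ℂ) : ℝ := 2 * ‖k 1 z‖ + ∑' n, un n z

/-- The closed disc without the points. -/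
def D : Set ℂ := {z | ‖z‖ ≤ 1 ∧ z ≠ 1 ∧ ∀ n, z ≠ xx n}

noncomputable def W (z : ℂ) : ℂ := I * (1 + z) / (1 - z)

theorem yI_ne (n : ℕ) : (y n : ℂ) - I ≠ 0 := by
  intro h
  have := congrArg Complex.im h
  simp at this

theorem yI_ne' (n : ℕ) : (y n : ℂ) + I ≠ 0 := by
  intro h
  have := congrArg Complex.im h
  simp at this

theorem y2I_ne (n : ℕ) : (y n : ℂ) - 2 * I ≠ 0 := by
  intro h
  have := congrArg Complex.im h
  simp at this

theorem y_ne (n : ℕ) : (y n : ℂ) ≠ 0 := by exact_mod_cast (y_pos n).ne'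

theorem W_im {z : ℂ} (hz : ‖z‖ ≤ 1) : 0 ≤ (W z).im := by
  unfold W
  rw [Complex.div_im]
  have h1 : (I * (1 + z)).im = 1 + z.re := by simp
  have h2 : (I * (1 + z)).re = -z.im := by simp
  have h3 : (1 - z).re = 1 - z.re := by simp
  have h4 : (1 - z).im = -z.im := by simp
  rw [h1, h2, h3, h4, ← sub_div]
  apply div_nonneg _ (Complex.normSq_nonneg _)
  have h5 : z.re ^ 2 + z.im ^ 2 ≤ 1 := by
    have : ‖z‖ ^ 2 = z.re ^ 2 + z.im ^ 2 := by
      rw [← Complex.normSq_eq_norm_sq, Complex.normSq_apply]; ring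
    rw [← this]
    nlinarith [norm_nonneg z]
  nlinarith

theorem id1 (n : ℕ) {z : ℂ} (hz : z ≠ 1) :
    1 - cc n * z = (1 - z) * (y n - W z) / (y n - I) := by
  have h1 : 1 - z ≠ 0 := sub_ne_zero.2 hz.symm
  have h2 := yI_ne n
  unfold cc W
  field_simp
  ring

theorem id2 (n : ℕ) {z : ℂ} (hz : z ≠ 1) :
    1 - bb n * z = (1 - z) * (y n - I - W z) / (y n - 2 * I) := by
  have h1 : 1 - z ≠ 0 := sub_ne_zero.2 hz.symm
  have h2 := y2I_ne n
  unfold bb W
  field_simp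
  ring

theorem cx (n : ℕ) (z : ℂ) : 1 - cc n * z = cc n * (xx n - z) := by
  have h1 := yI_ne n
  have h2 := yI_ne' n
  unfold cc xx
  field_simp

theorem norm_yI (n : ℕ) : ‖(y n : ℂ) + I‖ = ‖(y n : ℂ) - I‖ := by
  have : (starRingEnd ℂ) ((y n : ℂ) + I) = (y n : ℂ) - I := by
    rw [map_add, Complex.conj_ofReal, Complex.conj_I, sub_eq_add_neg]
  rw [← this, Complex.norm_conj]

theorem norm_cc (n : ℕ) : ‖cc n‖ = 1 := by
  unfold cc
  rw [norm_div, norm_yI, div_self (norm_ne_zero_iff.2 (yI_ne n))]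

theorem norm_xx (n : ℕ) : ‖xx n‖ = 1 := by
  unfold xx
  rw [norm_div, norm_yI, div_self (norm_ne_zero_iff.2 (yI_ne n))]

theorem norm_1cz (n : ℕ) (z : ℂ) : ‖1 - cc n * z‖ = ‖z - xx n‖ := by
  rw [cx, norm_mul, norm_cc, one_mul, norm_sub_rev]

theorem norm_bb (n : ℕ) : ‖bb n‖ ≤ 1 := by
  unfold bb
  rw [norm_div, div_le_one (norm_pos_iff.2 (y2I_ne n))]
  have h1 : (y n : ℂ) = (((y n : ℂ) - 2 * I).re : ℂ) := by simp
  calc ‖(y n : ℂ)‖ = |((y n : ℂ) - 2 * I).re| := by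
        rw [Complex.norm_real]; simp
    _ ≤ _ := Complex.abs_re_le_norm _

theorem W_ne {z : ℂ} (hz : z ∈ D) (n : ℕ) : W z - y n ≠ 0 := by
  intro h1
  have h2 : 1 - cc n * z = 0 := by
    rw [id1 n hz.2.1]
    have : (y n : ℂ) - W z = 0 := by rw [← neg_sub, h1, neg_zero]
    rw [this]; simp
  have h3 := norm_1cz n z
  rw [h2, norm_zero] at h3
  exact hz.2.2 n (sub_eq_zero.1 (norm_eq_zero.1 h3.symm))

theorem WI_ge {w : ℂ} (hw : 0 ≤ w.im) (n : ℕ) : ‖w - y n‖ ≤ ‖w - y n + I‖ := by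
  have h1 : ‖w - y n‖ ^ 2 ≤ ‖w - y n + I‖ ^ 2 := by
    rw [← Complex.normSq_eq_norm_sq, ← Complex.normSq_eq_norm_sq, Complex.normSq_apply,
      Complex.normSq_apply]
    simp
    nlinarith
  exact (pow_le_pow_iff_left₀ (norm_nonneg _) (norm_nonneg _) (by norm_num)).1 h1

noncomputable def T (n : ℕ) (w : ℂ) : ℂ :=
  (1 - I / y n) / (w - y n) + (1 - 2 * I / y n) / (w - y n + I)

noncomputable def tau (n : ℕ) (w : ℂ) : ℝ :=
  ‖1 - I / y n‖ / ‖w - y n‖ + ‖1 - 2 * I / y n‖ / ‖w - y n + I‖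

theorem WI_ne {w : ℂ} (hw : 0 ≤ w.im) (n : ℕ) : w - y n + I ≠ 0 := by
  intro h
  have := congrArg Complex.im h
  simp at this
  linarith

theorem gn_eq {z : ℂ} (hz : z ∈ D) (n : ℕ) : gn n z = 2 / (1 - z) * (-T n (W z)) := by
  have h1 : 1 - z ≠ 0 := sub_ne_zero.2 hz.2.1.symm
  have h2 := yI_ne n
  have h3 := y2I_ne n
  have h4 := W_ne hz n
  have h5 := WI_ne (W_im hz.1) n
  have h6 := y_ne n
  have h7 : (y n : ℂ) - W z ≠ 0 := by rw [← neg_sub]; exact neg_ne_zero.2 h4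
  have h8 : (y n : ℂ) - I - W z ≠ 0 := by
    have : (y n : ℂ) - I - W z = -(W z - y n + I) := by ring
    rw [this]; exact neg_ne_zero.2 h5
  unfold gn k T
  rw [id1 n hz.2.1, id2 n hz.2.1]
  have e1 : W z - y n = -((y n : ℂ) - W z) := by ring
  have e2 : W z - y n + I = -((y n : ℂ) - I - W z) := by ring
  rw [e1] at h4 ⊢
  have e3 : -((y n : ℂ) - W z) + I = -((y n : ℂ) - I - W z) := by ring
  rw [e3]
  push_cast
  field_simp
  ring

theorem un_eq {z : ℂ} (hz : z ∈ D) (n : ℕ) : un n z = 2 / ‖1 - z‖ * tau n (W z) := by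
  have h6 := y_pos n
  have n1 : ‖k (cc n) z‖ = ‖(y n : ℂ) - I‖ / (‖1 - z‖ * ‖W z - y n‖) := by
    unfold k
    rw [norm_inv, id1 n hz.2.1, norm_div, norm_mul, inv_div, norm_sub_rev (y n : ℂ) (W z)]
  have n2 : ‖k (bb n) z‖ = ‖(y n : ℂ) - 2 * I‖ / (‖1 - z‖ * ‖W z - y n + I‖) := by
    unfold k
    have : (y n : ℂ) - I - W z = -(W z - y n + I) := by ring
    rw [norm_inv, id2 n hz.2.1, norm_div, norm_mul, inv_div, this, norm_neg]
  have n3 : ‖1 - I / y n‖ = ‖(y n : ℂ) - I‖ / y n := by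
    have : 1 - I / y n = ((y n : ℂ) - I) / y n := by rw [sub_div, div_self (y_ne n)]
    rw [this, norm_div, Complex.norm_real, Real.norm_eq_abs, abs_of_pos h6]
  have n4 : ‖1 - 2 * I / y n‖ = ‖(y n : ℂ) - 2 * I‖ / y n := by
    have : 1 - 2 * I / y n = ((y n : ℂ) - 2 * I) / y n := by rw [sub_div, div_self (y_ne n)]
    rw [this, norm_div, Complex.norm_real, Real.norm_eq_abs, abs_of_pos h6]
  unfold un tau
  rw [n1, n2, n3, n4]
  have m1 : ‖1 - z‖ ≠ 0 := norm_ne_zero_iff.2 (sub_ne_zero.2 hz.2.1.symm)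
  have m2 := norm_ne_zero_iff.2 (W_ne hz n)
  have m3 := norm_ne_zero_iff.2 (WI_ne (W_im hz.1) n)
  field_simp

theorem tau_le {w : ℂ} (hw : 0 ≤ w.im) {n : ℕ} (hne : w - y n ≠ 0) :
    tau n w ≤ 4 / ‖w - y n‖ := by
  have hy := y_ge n
  have hy0 := y_pos n
  have h1 : ‖1 - I / y n‖ ≤ 2 := by
    refine (norm_sub_le _ _).trans ?_
    rw [norm_one, norm_div, norm_I, Complex.norm_real, Real.norm_eq_abs, abs_of_pos hy0]
    have : 1 / y n ≤ 1 := by rw [div_le_one hy0]; linarith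
    linarith
  have h2 : ‖1 - 2 * I / y n‖ ≤ 2 := by
    refine (norm_sub_le _ _).trans ?_
    rw [norm_one, norm_div, norm_mul, norm_I, Complex.norm_real, Real.norm_eq_abs,
      abs_of_pos hy0, Complex.norm_two]
    have : 2 * 1 / y n ≤ 1 := by rw [div_le_one hy0]; linarith
    linarith
  have h3 := WI_ge hw n
  have h4 : 0 < ‖w - y n‖ := norm_pos_iff.2 hne
  unfold tau
  calc ‖1 - I / y n‖ / ‖w - y n‖ + ‖1 - 2 * I / y n‖ / ‖w - y n + I‖
      ≤ 2 / ‖w - y n‖ + 2 / ‖w - y n‖ := by gcongr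
    _ = _ := by ring

theorem tau_nonneg (n : ℕ) (w : ℂ) : 0 ≤ tau n w := by unfold tau; positivity

theorem norm_T_le (n : ℕ) (w : ℂ) : ‖T n w‖ ≤ tau n w := by
  unfold T tau
  refine (norm_add_le _ _).trans ?_
  rw [norm_div, norm_div]

/-- The key estimate. -/
theorem key {w : ℂ} (hw : 0 ≤ w.im) (hne : ∀ n, w - y n ≠ 0) :
    Summable (fun n => tau n w) ∧ 1 / 256 * (1 + ∑' n, tau n w) ≤ ‖1 - ∑' n, T n w‖ := by
  have htend : Tendsto (fun n => ‖w - y n‖) atTop atTop := by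
    have h1 : ∀ n, y n - ‖w‖ ≤ ‖w - y n‖ := by
      intro n
      have := norm_sub_norm_le (y n : ℂ) w
      rw [Complex.norm_real, Real.norm_eq_abs, abs_of_pos (y_pos n), norm_sub_rev] at this
      exact this
    exact tendsto_atTop_mono h1 (tendsto_atTop_add_const_right _ _ y_tendsto)
  rw [← Nat.cofinite_eq_atTop] at htend
  obtain ⟨n₀, hn₀⟩ := htend.exists_forall_le
  set x := w - y n₀ with hx
  have hx0 : x ≠ 0 := hne n₀
  have hxim : 0 ≤ x.im := by rw [hx]; simpa using hw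
  have hX : 0 < ‖x‖ := norm_pos_iff.2 hx0
  obtain ⟨hs1, hs2⟩ := y_sum n₀
  have hsep : ∀ m, m ≠ n₀ → tau m w ≤ 8 * (1 / |y m - y n₀|) := by
    intro m hm
    have h1 : |y m - y n₀| ≤ 2 * ‖w - y m‖ := by
      have h2 : ‖((y m : ℂ) - y n₀)‖ ≤ ‖w - y n₀‖ + ‖w - y m‖ := by
        calc ‖((y m : ℂ) - y n₀)‖ = ‖(w - y n₀) - (w - y m)‖ := by congr 1; ring
          _ ≤ _ := norm_sub_le _ _
      rw [← Complex.ofReal_sub, Complex.norm_real, Real.norm_eq_abs] at h2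
      have := hn₀ m
      linarith
    have h3 : 0 < |y m - y n₀| := by
      rw [abs_pos]
      intro h
      exact hm (y_strictMono.injective (sub_eq_zero.1 h))
    refine (tau_le hw (hne m)).trans ?_
    have h4 : 0 < ‖w - y m‖ := norm_pos_iff.2 (hne m)
    rw [mul_one_div, div_le_div_iff₀ h4 h3]
    linarith
  have hsum' : Summable fun m => if m = n₀ then 0 else tau m w := by
    apply Summable.of_nonneg_of_le _ _ (hs1.mul_left 8)
    · intro m; split_ifs; exacts [le_rfl, tau_nonneg _ _]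
    · intro m
      split_ifs with h
      · simp
      · exact hsep m h
  have hsum'le : ∑' m, (if m = n₀ then 0 else tau m w) ≤ 1 / 250 := by
    calc ∑' m, (if m = n₀ then 0 else tau m w)
        ≤ ∑' m, 8 * (if m = n₀ then 0 else 1 / |y m - y n₀|) := by
          apply hsum'.tsum_le_tsum _ (hs1.mul_left 8)
          intro m
          split_ifs with h
          · simp
          · exact hsep m h
      _ = 8 * ∑' m, (if m = n₀ then 0 else 1 / |y m - y n₀|) := tsum_mul_left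
      _ ≤ 1 / 250 := by linarith
  have hsum : Summable fun m => tau m w := by
    have h1 : Summable fun m => if m = n₀ then tau n₀ w else 0 := by
      apply summable_of_ne_finset_zero (s := {n₀})
      intro b hb
      rw [if_neg (by simpa using hb)]
    refine (hsum'.add h1).congr fun m => ?_
    split_ifs with h
    · rw [h]; simp
    · simp
  have hsumT : Summable fun m => T m w := Summable.of_norm_bounded hsum fun m => norm_T_le m w
  refine ⟨hsum, ?_⟩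
  have e1 := hsum.tsum_eq_add_tsum_ite n₀
  have e2 := hsumT.tsum_eq_add_tsum_ite n₀
  have hrest : ‖∑' m, (if m = n₀ then 0 else T m w)‖ ≤ 1 / 250 := by
    refine le_trans ?_ hsum'le
    apply tsum_of_norm_bounded hsum'.hasSum
    intro m
    split_ifs
    · simp
    · exact norm_T_le m w
  have hT : 1 - T n₀ w = (1 - 1 / x - 1 / (x + I)) + (I / y n₀ / x + 2 * I / y n₀ / (x + I)) := by
    unfold T
    rw [← hx]
    ring
  have hyn := y_ge n₀
  have hyn0 := y_pos n₀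
  have herr : ‖I / y n₀ / x + 2 * I / y n₀ / (x + I)‖ ≤ 1 / 250 * (1 / ‖x‖) := by
    refine (norm_add_le _ _).trans ?_
    rw [norm_div, norm_div, norm_div, norm_div, norm_mul, norm_I, Complex.norm_real,
      Real.norm_eq_abs, abs_of_pos hyn0, Complex.norm_two]
    have h3 : ‖x‖ ≤ ‖x + I‖ := by
      have := WI_ge hw n₀
      rw [← hx] at this
      exact this
    calc 1 / y n₀ / ‖x‖ + 2 * 1 / y n₀ / ‖x + I‖ ≤ 1 / y n₀ / ‖x‖ + 2 * 1 / y n₀ / ‖x‖ := by gcongr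
      _ = 3 / y n₀ * (1 / ‖x‖) := by ring
      _ ≤ 1 / 250 * (1 / ‖x‖) := by
          gcongr ?_ * _
          rw [div_le_div_iff₀ hyn0 (by norm_num)]
          linarith
  have hmain := lemA hxim hx0
  have htau := tau_le hw hx0
  rw [← hx] at htau
  have hinv : 0 < 1 / ‖x‖ := by positivity
  have h4 : 4 / ‖x‖ = 4 * (1 / ‖x‖) := by ring
  rw [e1, e2, ← sub_sub, hT]
  have hfin : 1 / 49 * (1 + 1 / ‖x‖) - 1 / 250 * (1 / ‖x‖) - 1 / 250 ≤
      ‖(1 - 1 / x - 1 / (x + I)) + (I / y n₀ / x + 2 * I / y n₀ / (x + I)) -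
        ∑' m, (if m = n₀ then 0 else T m w)‖ := by
    have a1 := norm_sub_norm_le ((1 - 1 / x - 1 / (x + I)) +
      (I / y n₀ / x + 2 * I / y n₀ / (x + I))) (∑' m, (if m = n₀ then 0 else T m w))
    have a2 := norm_sub_norm_le (1 - 1 / x - 1 / (x + I))
      (-(I / y n₀ / x + 2 * I / y n₀ / (x + I)))
    rw [norm_neg, sub_neg_eq_add] at a2
    linarith
  refine le_trans ?_ hfin
  linarith

theorem norm_one_sub_pos {z : ℂ} (hz : z ∈ D) : 0 < ‖1 - z‖ :=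
  norm_pos_iff.2 (sub_ne_zero.2 hz.2.1.symm)

theorem un_summable {z : ℂ} (hz : z ∈ D) : Summable fun n => un n z := by
  have h1 := (key (W_im hz.1) (W_ne hz)).1
  refine (h1.mul_left (2 / ‖1 - z‖)).congr fun n => ?_
  rw [un_eq hz]

theorem gn_le (n : ℕ) (z : ℂ) : ‖gn n z‖ ≤ un n z := by
  unfold gn un
  have hy := y_pos n
  rw [norm_mul, Complex.norm_real, Real.norm_eq_abs, abs_of_pos (by positivity)]
  gcongr
  exact norm_add_le _ _

theorem gn_summable {z : ℂ} (hz : z ∈ D) : Summable fun n => gn n z :=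
  Summable.of_norm_bounded (un_summable hz) fun n => gn_le n z

theorem U_eq {z : ℂ} (hz : z ∈ D) : U z = 2 / ‖1 - z‖ * (1 + ∑' n, tau n (W z)) := by
  unfold U
  simp_rw [un_eq hz]
  rw [tsum_mul_left, mul_add, mul_one]
  congr 1
  unfold k
  rw [one_mul, norm_inv]
  rfl

/-- `|h| ≥ U / 256`. -/
theorem h_ge {z : ℂ} (hz : z ∈ D) : 1 / 256 * U z ≤ ‖h z‖ := by
  have h1 := (key (W_im hz.1) (W_ne hz)).2
  have h2 := norm_one_sub_pos hz
  have h3 : h z = 2 / (1 - z) * (1 - ∑' n, T n (W z)) := by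
    unfold h
    simp_rw [gn_eq hz]
    rw [tsum_mul_left, tsum_neg]
    unfold k
    rw [one_mul, div_eq_mul_inv]
    ring
  rw [h3, norm_mul, norm_div, Complex.norm_two, U_eq hz]
  calc 1 / 256 * (2 / ‖1 - z‖ * (1 + ∑' n, tau n (W z)))
      = 2 / ‖1 - z‖ * (1 / 256 * (1 + ∑' n, tau n (W z))) := by ring
    _ ≤ _ := by gcongr

end Pool.Agent.V1179.Peak
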