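import Mathlib
import Pool.Agent.V1179.Peak.Kernel

set_option autoImplicit false

namespace Pool.Agent.V1179.Peak

open Filter Topology Complex Set

theorem norm_one_sub_le {z : ℂ} (hz : z ∈ D) : ‖1 - z‖ ≤ 2 := by
  refine (norm_sub_le _ _).trans ?_
  rw [norm_one]
  linarith [hz.1]

theorem k1_eq (z : ℂ) : ‖k 1 z‖ = 1 / ‖1 - z‖ := by
  unfold k
  rw [one_mul, norm_inv, one_div]

theorem un_nonneg (n : ℕ) (z : ℂ) : 0 ≤ un n z := by
  have := y_pos n
  unfold un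
  positivity

theorem U_ge_un {z : ℂ} (hz : z ∈ D) (n : ℕ) : 2 * ‖k 1 z‖ + un n z ≤ U z := by
  unfold U
  have := (un_summable hz).le_tsum n (fun m _ => un_nonneg m z)
  linarith

theorem U_ge_k1 {z : ℂ} (hz : z ∈ D) : 2 * ‖k 1 z‖ ≤ U z := by
  have h1 := U_ge_un hz 0
  have h2 := un_nonneg 0 z
  linarith

theorem U_ge_one {z : ℂ} (hz : z ∈ D) : 1 ≤ U z := by
  have h1 := U_ge_k1 hz
  have h2 := norm_one_sub_le hz
  have h3 := norm_one_sub_pos hz
  rw [k1_eq] at h1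
  have h4 : 1 / 2 ≤ 1 / ‖1 - z‖ := one_div_le_one_div_of_le h3 h2
  linarith

theorem norm_1cz_pos {z : ℂ} (hz : z ∈ D) (n : ℕ) : 0 < ‖1 - cc n * z‖ := by
  rw [norm_1cz]
  exact norm_pos_iff.2 (sub_ne_zero.2 (hz.2.2 n))

theorem one_sub_xx (n : ℕ) : ‖1 - xx n‖ ≤ 2 / y n := by
  have h1 := yI_ne' n
  have h2 : 1 - xx n = 2 * I / (y n + I) := by
    unfold xx
    field_simp
    ring
  have h3 := y_pos n
  have h4 : y n ≤ ‖(y n : ℂ) + I‖ := by
    have := Complex.abs_re_le_norm ((y n : ℂ) + I)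
    simp only [Complex.add_re, Complex.ofReal_re, Complex.I_re, add_zero] at this
    exact (le_abs_self _).trans this
  rw [h2, norm_div, norm_mul, norm_I, Complex.norm_two, mul_one]
  gcongr

theorem kc_le {z : ℂ} (hz : z ∈ D) (n : ℕ) : ‖k (cc n) z‖ ≤ 2 * U z ^ 2 := by
  have h1 := U_ge_un hz n
  have hU1 := U_ge_one hz
  have hs := norm_1cz_pos hz n
  set s := ‖1 - cc n * z‖ with hsd
  have hkc : ‖k (cc n) z‖ = 1 / s := by
    unfold k
    rw [norm_inv, one_div]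
  have hy := y_pos n
  set q := 2 / y n with hq
  have hq0 : 0 < q := by positivity
  have h2 : ‖1 - z‖ ≤ q + s := by
    have h3 : 1 - z = (1 - xx n) + (xx n - z) := by ring
    rw [h3]
    refine (norm_add_le _ _).trans ?_
    rw [hsd, norm_1cz, norm_sub_rev z]
    linarith [one_sub_xx n]
  have h1z := norm_one_sub_pos hz
  have h4 : 2 / (q + s) + q / s ≤ U z := by
    have h5 : q * (1 / s) ≤ un n z := by
      unfold un
      rw [← hq, ← hkc]
      have := norm_nonneg (k (bb n) z)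
      nlinarith
    have h6 : 1 / (q + s) ≤ ‖k 1 z‖ := by
      rw [k1_eq]
      exact one_div_le_one_div_of_le h1z h2
    calc 2 / (q + s) + q / s = 2 * (1 / (q + s)) + q * (1 / s) := by ring
      _ ≤ 2 * ‖k 1 z‖ + un n z := by linarith
      _ ≤ _ := h1
  rw [hkc]
  rcases le_total s q with h | h
  · have h5 : 1 / q + q / s ≤ U z := by
      refine le_trans ?_ h4
      have h6 : 1 / q ≤ 2 / (q + s) := by
        rw [div_le_div_iff₀ hq0 (by positivity)]
        linarith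
      linarith
    have h7 : 1 / s ≤ (1 / q + q / s) ^ 2 := by
      have h8 : (1 / q + q / s) ^ 2 = (1 / q - q / s) ^ 2 + 4 * (1 / s) := by
        field_simp
        ring
      rw [h8]
      have : 0 < 1 / s := by positivity
      nlinarith [sq_nonneg (1 / q - q / s)]
    have h9 : (1 / q + q / s) ^ 2 ≤ U z ^ 2 := by gcongr
    nlinarith
  · have h5 : 1 / s ≤ U z := by
      refine le_trans ?_ h4
      have h6 : 1 / s ≤ 2 / (q + s) := by
        rw [div_le_div_iff₀ hs (by positivity)]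
        linarith
      have : 0 < q / s := by positivity
      linarith
    nlinarith

theorem kb_le {z : ℂ} (hz : z ∈ D) (n : ℕ) : ‖k (bb n) z‖ ≤ 4 * U z ^ 2 := by
  have h1 := kc_le hz n
  have hs := norm_1cz_pos hz n
  have h1z := norm_one_sub_pos hz
  have hyI : 0 < ‖(y n : ℂ) - I‖ := norm_pos_iff.2 (yI_ne n)
  have hy2I : 0 < ‖(y n : ℂ) - 2 * I‖ := norm_pos_iff.2 (y2I_ne n)
  have h2 : ‖1 - cc n * z‖ / 2 ≤ ‖1 - bb n * z‖ := by
    rw [id1 n hz.2.1, id2 n hz.2.1, norm_div, norm_div, norm_mul, norm_mul]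
    have h3 : ‖(y n : ℂ) - W z‖ ≤ ‖(y n : ℂ) - I - W z‖ := by
      have := WI_ge (W_im hz.1) n
      have e1 : (y n : ℂ) - I - W z = -(W z - y n + I) := by ring
      rw [norm_sub_rev, e1, norm_neg]
      exact this
    have h4 : ‖(y n : ℂ) - 2 * I‖ ≤ 2 * ‖(y n : ℂ) - I‖ := by
      have e2 : (y n : ℂ) - 2 * I = ((y n : ℂ) - I) - I := by ring
      have h5 : 1 ≤ ‖(y n : ℂ) - I‖ := by
        have := Complex.abs_im_le_norm ((y n : ℂ) - I)
        simpa using this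
      rw [e2]
      refine (norm_sub_le _ _).trans ?_
      rw [norm_I]
      linarith
    rw [div_div, div_le_div_iff₀ (by positivity) hy2I]
    calc ‖1 - z‖ * ‖(y n : ℂ) - W z‖ * ‖(y n : ℂ) - 2 * I‖
        ≤ ‖1 - z‖ * ‖(y n : ℂ) - I - W z‖ * (2 * ‖(y n : ℂ) - I‖) := by gcongr
      _ = _ := by ring
  have h6 : ‖k (bb n) z‖ ≤ 2 * ‖k (cc n) z‖ := by
    unfold k
    rw [norm_inv, norm_inv]
    calc ‖1 - bb n * z‖⁻¹ ≤ (‖1 - cc n * z‖ / 2)⁻¹ := by gcongr
      _ = 2 * ‖1 - cc n * z‖⁻¹ := by rw [inv_div, div_eq_mul_inv]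
  linarith

theorem k1_le {z : ℂ} (hz : z ∈ D) : ‖k 1 z‖ ≤ 4 * U z ^ 2 := by
  have h1 := U_ge_k1 hz
  have h2 := U_ge_one hz
  have h3 := norm_nonneg (k 1 z)
  nlinarith

theorem k_sub {b z w : ℂ} (h1 : 1 - b * z ≠ 0) (h2 : 1 - b * w ≠ 0) (hb : ‖b‖ ≤ 1) {M : ℝ}
    (hM : ‖k b z‖ ≤ M) : ‖k b z - k b w‖ ≤ ‖z - w‖ * M * ‖k b w‖ := by
  have e1 : k b z - k b w = b * (z - w) * k b z * k b w := by
    unfold k
    field_simp
    ring
  rw [e1, norm_mul, norm_mul, norm_mul]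
  have hM0 : 0 ≤ M := (norm_nonneg _).trans hM
  calc ‖b‖ * ‖z - w‖ * ‖k b z‖ * ‖k b w‖ ≤ 1 * ‖z - w‖ * M * ‖k b w‖ := by gcongr
    _ = _ := by rw [one_mul]

theorem one_bb_ne {z : ℂ} (hz : z ∈ D) (n : ℕ) : 1 - bb n * z ≠ 0 := by
  rw [id2 n hz.2.1]
  have h1 : 1 - z ≠ 0 := sub_ne_zero.2 hz.2.1.symm
  have h2 : (y n : ℂ) - I - W z ≠ 0 := by
    have : (y n : ℂ) - I - W z = -(W z - y n + I) := by ring
    rw [this]; exact neg_ne_zero.2 (WI_ne (W_im hz.1) n)
  exact div_ne_zero (mul_ne_zero h1 h2) (y2I_ne n)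

theorem h_sub {z w : ℂ} (hz : z ∈ D) (hw : w ∈ D) :
    ‖h z - h w‖ ≤ ‖z - w‖ * (4 * U z ^ 2) * U w := by
  have h1 : h z - h w = 2 * (k 1 z - k 1 w) + ∑' n, (gn n z - gn n w) := by
    unfold h
    rw [(gn_summable hz).tsum_sub (gn_summable hw)]
    ring
  have hM : 0 ≤ 4 * U z ^ 2 := by positivity
  have h2 : ∀ n, ‖gn n z - gn n w‖ ≤ ‖z - w‖ * (4 * U z ^ 2) * un n w := by
    intro n
    have hy := y_pos n
    have e1 : gn n z - gn n w = ((2 / y n : ℝ) : ℂ) *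
        ((k (cc n) z - k (cc n) w) + (k (bb n) z - k (bb n) w)) := by
      unfold gn
      ring
    have a1 := k_sub (norm_pos_iff.1 (norm_1cz_pos hz n)) (norm_pos_iff.1 (norm_1cz_pos hw n))
      (norm_cc n).le ((kc_le hz n).trans (by nlinarith [sq_nonneg (U z)] : 2 * U z ^ 2 ≤ 4 * U z ^ 2))
    have a2 := k_sub (one_bb_ne hz n) (one_bb_ne hw n) (norm_bb n) (kb_le hz n)
    rw [e1, norm_mul, Complex.norm_real, Real.norm_eq_abs, abs_of_pos (by positivity)]
    calc 2 / y n * ‖(k (cc n) z - k (cc n) w) + (k (bb n) z - k (bb n) w)‖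
        ≤ 2 / y n * (‖z - w‖ * (4 * U z ^ 2) * ‖k (cc n) w‖ +
          ‖z - w‖ * (4 * U z ^ 2) * ‖k (bb n) w‖) := by
          gcongr
          exact (norm_add_le _ _).trans (add_le_add a1 a2)
      _ = _ := by unfold un; ring
  have h3 : ‖k 1 z - k 1 w‖ ≤ ‖z - w‖ * (4 * U z ^ 2) * ‖k 1 w‖ := by
    apply k_sub _ _ (by simp) (k1_le hz)
    · rw [one_mul]; exact norm_pos_iff.1 (norm_one_sub_pos hz)
    · rw [one_mul]; exact norm_pos_iff.1 (norm_one_sub_pos hw)
  have hs : Summable fun n => ‖z - w‖ * (4 * U z ^ 2) * un n w := (un_summable hw).mul_left _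
  have h4 : ‖∑' n, (gn n z - gn n w)‖ ≤ ‖z - w‖ * (4 * U z ^ 2) * ∑' n, un n w := by
    rw [← tsum_mul_left]
    exact tsum_of_norm_bounded hs.hasSum h2
  rw [h1]
  refine (norm_add_le _ _).trans ?_
  rw [norm_mul, Complex.norm_two]
  calc 2 * ‖k 1 z - k 1 w‖ + ‖∑' n, (gn n z - gn n w)‖
      ≤ 2 * (‖z - w‖ * (4 * U z ^ 2) * ‖k 1 w‖) + ‖z - w‖ * (4 * U z ^ 2) * ∑' n, un n w := by
        gcongr
    _ = _ := by unfold U; ring

theorem h_ne {z : ℂ} (hz : z ∈ D) : h z ≠ 0 := by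
  have h1 := h_ge hz
  have h2 := U_ge_one hz
  intro h0
  rw [h0, norm_zero] at h1
  linarith

/-- `1 / h`, extended by zero. -/
noncomputable def F (z : ℂ) : ℂ := by
  classical
  exact if z ∈ D then (h z)⁻¹ else 0

theorem F_of_mem {z : ℂ} (hz : z ∈ D) : F z = (h z)⁻¹ := by
  unfold F; rw [if_pos hz]

theorem F_of_not {z : ℂ} (hz : z ∉ D) : F z = 0 := by
  unfold F; rw [if_neg hz]

theorem F_le {z : ℂ} (hz : z ∈ D) : ‖F z‖ ≤ 256 / U z := by
  have h1 := h_ge hz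
  have h2 := U_ge_one hz
  rw [F_of_mem hz, norm_inv]
  calc ‖h z‖⁻¹ ≤ (1 / 256 * U z)⁻¹ := by gcongr
    _ = 256 / U z := by field_simp

theorem F_sub_aux {z w : ℂ} (hz : z ∈ D) (hw : w ∈ D) (hle : U z ≤ U w) :
    ‖F z - F w‖ ≤ 12000 * Real.sqrt ‖z - w‖ := by
  have hz1 := U_ge_one hz
  have hw1 := U_ge_one hw
  have hhz := h_ge hz
  have hhw := h_ge hw
  have a1 : ‖F z - F w‖ ≤ 262144 * ‖z - w‖ * U z := by
    have e1 : F z - F w = (h w - h z) * (h z)⁻¹ * (h w)⁻¹ := by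
      rw [F_of_mem hz, F_of_mem hw]
      have := h_ne hz
      have := h_ne hw
      field_simp
    rw [e1, norm_mul, norm_mul, norm_sub_rev (h w), norm_inv, norm_inv]
    calc ‖h z - h w‖ * ‖h z‖⁻¹ * ‖h w‖⁻¹
        ≤ (‖z - w‖ * (4 * U z ^ 2) * U w) * (1 / 256 * U z)⁻¹ * (1 / 256 * U w)⁻¹ := by
          gcongr
          exact h_sub hz hw
      _ = 262144 * ‖z - w‖ * U z := by
          field_simp
          ring
  have a2 : ‖F z - F w‖ ≤ 512 / U z := by
    refine (norm_sub_le _ _).trans ?_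
    have b1 := F_le hz
    have b2 := F_le hw
    have b3 : 256 / U w ≤ 256 / U z := by gcongr
    calc ‖F z‖ + ‖F w‖ ≤ 256 / U z + 256 / U z := by linarith
      _ = _ := by ring
  have a3 : ‖F z - F w‖ ^ 2 ≤ (12000 * Real.sqrt ‖z - w‖) ^ 2 := by
    rw [mul_pow, Real.sq_sqrt (norm_nonneg _)]
    have hr := norm_nonneg (z - w)
    calc ‖F z - F w‖ ^ 2 = ‖F z - F w‖ * ‖F z - F w‖ := by ring
      _ ≤ (262144 * ‖z - w‖ * U z) * (512 / U z) := by gcongr
      _ = 134217728 * ‖z - w‖ := by field_simp; ring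
      _ ≤ 12000 ^ 2 * ‖z - w‖ := by nlinarith
  exact (pow_le_pow_iff_left₀ (norm_nonneg _) (by positivity) (by norm_num)).1 a3

theorem F_bd_aux {z e : ℂ} (hz : z ∈ D) (he : ‖z - e‖⁻¹ ≤ 2 * U z ^ 2) (hne : z ≠ e) :
    ‖F z‖ ≤ 12000 * Real.sqrt ‖z - e‖ := by
  have hz1 := U_ge_one hz
  have h1 := F_le hz
  have h2 : 0 < ‖z - e‖ := norm_pos_iff.2 (sub_ne_zero.2 hne)
  have a3 : ‖F z‖ ^ 2 ≤ (12000 * Real.sqrt ‖z - e‖) ^ 2 := by
    rw [mul_pow, Real.sq_sqrt (norm_nonneg _)]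
    have h3 : 1 / U z ^ 2 ≤ 2 * ‖z - e‖ := by
      rw [div_le_iff₀ (by positivity)]
      rw [inv_eq_one_div, div_le_iff₀ h2] at he
      linarith
    calc ‖F z‖ ^ 2 ≤ (256 / U z) ^ 2 := by gcongr
      _ = 65536 * (1 / U z ^ 2) := by field_simp; norm_num
      _ ≤ 65536 * (2 * ‖z - e‖) := by gcongr
      _ ≤ 12000 ^ 2 * ‖z - e‖ := by nlinarith
  exact (pow_le_pow_iff_left₀ (norm_nonneg _) (by positivity) (by norm_num)).1 a3

theorem F_bd {z e : ℂ} (hz : z ∈ D) (he1 : ‖e‖ ≤ 1) (he : e ∉ D) :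
    ‖F z‖ ≤ 12000 * Real.sqrt ‖z - e‖ := by
  have hcase : e = 1 ∨ ∃ n, e = xx n := by
    by_contra hcon
    push Not at hcon
    exact he ⟨he1, hcon.1, hcon.2⟩
  have hU := U_ge_one hz
  rcases hcase with rfl | ⟨n, rfl⟩
  · apply F_bd_aux hz _ hz.2.1
    have h1 := U_ge_k1 hz
    rw [k1_eq, norm_sub_rev, one_div] at h1
    nlinarith
  · apply F_bd_aux hz _ (hz.2.2 n)
    have h1 := kc_le hz n
    unfold k at h1
    rwa [norm_inv, norm_1cz] at h1

/-- Hölder continuity of `F` on the closed disc. -/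
theorem F_holder {z w : ℂ} (hz : ‖z‖ ≤ 1) (hw : ‖w‖ ≤ 1) :
    ‖F z - F w‖ ≤ 12000 * Real.sqrt ‖z - w‖ := by
  by_cases h1 : z ∈ D
  · by_cases h2 : w ∈ D
    · rcases le_total (U z) (U w) with h | h
      · exact F_sub_aux h1 h2 h
      · rw [norm_sub_rev, norm_sub_rev z w]
        exact F_sub_aux h2 h1 h
    · rw [F_of_not h2, sub_zero]
      exact F_bd h1 hw h2
  · by_cases h2 : w ∈ D
    · rw [F_of_not h1, zero_sub, norm_neg, norm_sub_rev z w]
      exact F_bd h2 hz h1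
    · rw [F_of_not h1, F_of_not h2, sub_self, norm_zero]
      positivity

theorem F_cont : ContinuousOn F (Metric.closedBall 0 1) := by
  intro z hz
  have hz1 : ‖z‖ ≤ 1 := by simpa using hz
  rw [ContinuousWithinAt, tendsto_iff_norm_sub_tendsto_zero]
  have h1 : Tendsto (fun w : ℂ => 12000 * Real.sqrt ‖w - z‖) (𝓝[Metric.closedBall 0 1] z) (𝓝 0) := by
    have h2 : Continuous fun w : ℂ => 12000 * Real.sqrt ‖w - z‖ := by fun_prop
    have h3 := (h2.tendsto z).mono_left (nhdsWithin_le_nhds (s := Metric.closedBall 0 1))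
    simpa using h3
  apply tendsto_of_tendsto_of_tendsto_of_le_of_le' tendsto_const_nhds h1
  · exact Eventually.of_forall fun w => norm_nonneg _
  · filter_upwards [self_mem_nhdsWithin] with w hw
    exact F_holder (by simpa using hw) hz1

theorem mem_D_of_ball {z : ℂ} (hz : ‖z‖ < 1) : z ∈ D := by
  refine ⟨hz.le, ?_, fun n => ?_⟩
  · rintro rfl; simp at hz
  · rintro rfl; rw [norm_xx] at hz; exact lt_irrefl _ hz

theorem k_diff {b : ℂ} (hb : ‖b‖ ≤ 1) : DifferentiableOn ℂ (k b) (Metric.ball 0 1) := by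
  unfold k
  apply DifferentiableOn.inv (by fun_prop)
  intro z hz h0
  have hz1 : ‖z‖ < 1 := by simpa using hz
  have h1 : b * z = 1 := (sub_eq_zero.1 h0).symm
  have h2 : ‖b * z‖ < 1 := by
    rw [norm_mul]
    nlinarith [norm_nonneg z, norm_nonneg b]
  rw [h1, norm_one] at h2
  exact lt_irrefl _ h2

theorem h_diff : DifferentiableOn ℂ h (Metric.ball 0 1) := by
  have hmain : ∀ r : ℝ, r < 1 → DifferentiableOn ℂ (fun z => ∑' n, gn n z) (Metric.ball 0 r) := by
    intro r hr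
    apply differentiableOn_tsum_of_summable_norm (u := fun n => (4 / (1 - r)) * (1 / y n))
      (inv_y_summable.mul_left _) _ Metric.isOpen_ball
    · intro n z hz
      have hzr : ‖z‖ < r := by simpa using hz
      have hkb : ∀ b : ℂ, ‖b‖ ≤ 1 → ‖k b z‖ ≤ 1 / (1 - r) := by
        intro b hb
        unfold k
        rw [norm_inv, ← one_div]
        apply one_div_le_one_div_of_le (by linarith)
        have h1 := norm_sub_norm_le (1 : ℂ) (b * z)
        rw [norm_one, norm_mul] at h1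
        nlinarith [norm_nonneg z, norm_nonneg b]
      have hy := y_pos n
      have h1r : 0 < 1 - r := by linarith
      refine (gn_le n z).trans ?_
      unfold un
      calc 2 / y n * (‖k (cc n) z‖ + ‖k (bb n) z‖) ≤ 2 / y n * (1 / (1 - r) + 1 / (1 - r)) := by
            gcongr
            · exact hkb _ (norm_cc n).le
            · exact hkb _ (norm_bb n)
        _ = _ := by ring
    · intro n
      unfold gn
      have h1 := (k_diff (norm_cc n).le).mono (Metric.ball_subset_ball hr.le)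
      have h2 := (k_diff (norm_bb n)).mono (Metric.ball_subset_ball hr.le)
      exact (h1.add h2).const_mul _
  intro z hz
  have hz1 : ‖z‖ < 1 := by simpa using hz
  set r := (‖z‖ + 1) / 2 with hr
  have hr1 : r < 1 := by rw [hr]; linarith
  have hzr : z ∈ Metric.ball (0 : ℂ) r := by
    rw [mem_ball_zero_iff, hr]; linarith
  have h1 := ((hmain r hr1) z hzr).differentiableAt (Metric.isOpen_ball.mem_nhds hzr)
  have h2 := ((k_diff (b := 1) (by simp)) z hz).differentiableAt (Metric.isOpen_ball.mem_nhds hz)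
  exact ((h2.const_mul 2).add h1).differentiableWithinAt

theorem F_diff : DifferentiableOn ℂ F (Metric.ball 0 1) := by
  have h1 : DifferentiableOn ℂ (fun z => (h z)⁻¹) (Metric.ball 0 1) := by
    apply h_diff.inv
    intro z hz
    exact h_ne (mem_D_of_ball (by simpa using hz))
  apply h1.congr
  intro z hz
  exact F_of_mem (mem_D_of_ball (by simpa using hz))

theorem k_re {b z : ℂ} (hb : ‖b‖ ≤ 1) (hz : ‖z‖ ≤ 1) (hne : 1 - b * z ≠ 0) : 1 / 2 ≤ (k b z).re := by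
  unfold k
  rw [Complex.inv_re]
  have h1 : 0 < Complex.normSq (1 - b * z) := Complex.normSq_pos.2 hne
  rw [le_div_iff₀ h1]
  set w := b * z with hw
  have h2 : ‖w‖ ^ 2 ≤ 1 := by
    rw [hw, norm_mul]
    have : ‖b‖ * ‖z‖ ≤ 1 := by nlinarith [norm_nonneg z, norm_nonneg b]
    have h0 : 0 ≤ ‖b‖ * ‖z‖ := by positivity
    nlinarith
  rw [← Complex.normSq_eq_norm_sq, Complex.normSq_apply] at h2
  rw [Complex.normSq_apply]
  simp
  nlinarith

theorem h_re {z : ℂ} (hz : z ∈ D) : 1 ≤ (h z).re := by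
  have h1 : 1 / 2 ≤ (k 1 z).re :=
    k_re (by simp) hz.1 (by rw [one_mul]; exact norm_pos_iff.1 (norm_one_sub_pos hz))
  have h2 : ∀ n, 0 ≤ (gn n z).re := by
    intro n
    have a1 := k_re (norm_cc n).le hz.1 (norm_pos_iff.1 (norm_1cz_pos hz n))
    have a2 := k_re (norm_bb n) hz.1 (one_bb_ne hz n)
    have hy := y_pos n
    unfold gn
    rw [Complex.re_ofReal_mul, Complex.add_re]
    have : 0 ≤ 2 / y n := by positivity
    nlinarith
  unfold h
  rw [Complex.add_re, Complex.re_tsum (gn_summable hz)]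
  have h3 : 0 ≤ ∑' n, (gn n z).re := tsum_nonneg h2
  have h4 : (2 * k 1 z).re = 2 * (k 1 z).re := by simp
  rw [h4]
  linarith

/-- The peak function. -/
theorem peak {z : ℂ} (hz : z ∈ D) : ‖1 - F z‖ < 1 := by
  have h1 := h_re hz
  have h2 := h_ne hz
  have e1 : 1 - F z = (h z - 1) / h z := by
    rw [F_of_mem hz]
    field_simp
  rw [e1, norm_div, div_lt_one (norm_pos_iff.2 h2)]
  have h3 : ‖h z - 1‖ ^ 2 < ‖h z‖ ^ 2 := by
    rw [← Complex.normSq_eq_norm_sq, ← Complex.normSq_eq_norm_sq, Complex.normSq_apply,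
      Complex.normSq_apply]
    simp
    nlinarith
  exact (pow_lt_pow_iff_left₀ (norm_nonneg _) (norm_nonneg _) (by norm_num)).1 h3

end Pool.Agent.V1179.Peak
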