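import Mathlib
import Pool.Agent.V1179.Peak.Holder

set_option autoImplicit false

namespace Pool.Agent.V1179.Peak

open Filter Topology Complex Set MeasureTheory

/-- The set. -/
def E : Set ℂ := insert 1 (range xx)

theorem xx_tendsto : Tendsto xx atTop (𝓝 1) := by
  rw [tendsto_iff_norm_sub_tendsto_zero]
  have h1 : Tendsto (fun n => 2 / y n) atTop (𝓝 0) := y_tendsto.const_div_atTop 2
  apply tendsto_of_tendsto_of_tendsto_of_le_of_le tendsto_const_nhds h1
  · intro n; exact norm_nonneg _
  · intro n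
    simp only
    rw [norm_sub_rev]
    exact one_sub_xx n

theorem E_compact : IsCompact E := xx_tendsto.isCompact_insert_range

theorem E_sub : E ⊆ Metric.sphere 0 1 := by
  rintro z (rfl | ⟨n, rfl⟩)
  · simp
  · simp [norm_xx]

theorem mem_D_iff {z : ℂ} (hz : ‖z‖ ≤ 1) : z ∈ D ↔ z ∉ E := by
  unfold D E
  simp only [Set.mem_ofPred_eq, mem_insert_iff, mem_range, not_or, not_exists]
  constructor
  · rintro ⟨_, h1, h2⟩
    exact ⟨h1, fun n hn => h2 n hn.symm⟩
  · rintro ⟨h1, h2⟩
    exact ⟨hz, h1, fun n hn => h2 n hn.symm⟩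

/-- Angles. -/
noncomputable def th (n : ℕ) : ℝ := 2 * Real.arctan (1 / y n)

theorem th_pos (n : ℕ) : 0 < th n := by
  unfold th
  have := Real.arctan_pos.2 (one_div_pos.2 (y_pos n))
  linarith

theorem th_lt (n : ℕ) : th n < Real.pi := by
  unfold th
  have := Real.arctan_lt_pi_div_two (1 / y n)
  linarith

theorem th_anti : StrictAnti th := by
  intro m n h
  unfold th
  have h1 : 1 / y n < 1 / y m := one_div_lt_one_div_of_lt (y_pos m) (y_strictMono h)
  have := Real.arctan_strictMono h1
  linarith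

theorem exp_th (n : ℕ) : Complex.exp (((-th n : ℝ) : ℂ) * I) = xx n := by
  have hy := y_pos n
  set t := 1 / y n with ht
  have h1 : Complex.exp (((-Real.arctan t : ℝ) : ℂ) * I) = (1 - t * I) / (Real.sqrt (1 + t ^ 2) : ℝ) := by
    rw [Complex.exp_mul_I, ← Complex.ofReal_cos, ← Complex.ofReal_sin, Real.cos_neg, Real.sin_neg,
      Real.cos_arctan, Real.sin_arctan]
    push_cast
    ring
  have h2 : (((-th n : ℝ) : ℂ) * I) = (((-Real.arctan t : ℝ) : ℂ) * I) + (((-Real.arctan t : ℝ) : ℂ) * I) := by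
    unfold th
    rw [← ht]
    push_cast
    ring
  rw [h2, Complex.exp_add, h1]
  have h3 : ((Real.sqrt (1 + t ^ 2) : ℝ) : ℂ) * ((Real.sqrt (1 + t ^ 2) : ℝ) : ℂ) = 1 + (t : ℂ) ^ 2 := by
    rw [← Complex.ofReal_mul, Real.mul_self_sqrt (by positivity)]
    push_cast
    ring
  rw [div_mul_div_comm, h3]
  have h4 : (1 : ℂ) + (t : ℂ) ^ 2 = (1 - t * I) * (1 + t * I) := by
    ring_nf
    rw [I_sq]
    ring
  have h5 : (1 : ℂ) - t * I ≠ 0 := by
    intro h
    have := congrArg Complex.re h
    simp at this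
  have h6 : (1 : ℂ) + t * I ≠ 0 := by
    intro h
    have := congrArg Complex.re h
    simp at this
  have h7 := y_ne n
  have h8 := yI_ne' n
  rw [h4, mul_div_mul_left _ _ h5]
  unfold xx
  rw [ht]
  push_cast
  rw [div_eq_div_iff]
  · field_simp
  · rw [ht] at h6
    push_cast at h6
    exact h6
  · exact h8

theorem norm_exp_sub (a b : ℝ) : ‖Complex.exp ((a : ℂ) * I) - Complex.exp ((b : ℂ) * I)‖ ≤ |a - b| := by
  have h1 : Complex.exp ((a : ℂ) * I) - Complex.exp ((b : ℂ) * I) =
      Complex.exp ((b : ℂ) * I) * (Complex.exp (I * ((a - b : ℝ) : ℂ)) - 1) := by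
    rw [mul_sub, ← Complex.exp_add, mul_one]
    congr 2
    push_cast
    ring
  rw [h1, norm_mul, Complex.norm_exp_ofReal_mul_I, one_mul]
  have := Real.norm_exp_I_mul_ofReal_sub_one_le (x := a - b)
  simpa using this

theorem gap_ge (n : ℕ) : 1 / 2 * ((y (n + 1) - y n) / (y n * y (n + 1))) ≤ th n - th (n + 1) := by
  have h1 := norm_exp_sub (-th n) (-th (n + 1))
  rw [exp_th, exp_th] at h1
  have h2 := th_anti (Nat.lt_succ_self n)
  rw [Nat.succ_eq_add_one] at h2
  have h3 : |(-th n) - (-th (n + 1))| = th n - th (n + 1) := by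
    rw [abs_sub_comm, abs_of_pos (by linarith)]
    ring
  rw [h3] at h1
  refine le_trans ?_ h1
  have e1 : xx n - xx (n + 1) = -2 * I * (y (n + 1) - y n : ℝ) / ((y n + I) * (y (n + 1) + I)) := by
    have := yI_ne' n
    have := yI_ne' (n + 1)
    unfold xx
    push_cast
    field_simp
    ring_nf
  have h4 := y_strictMono (Nat.lt_succ_self n)
  rw [Nat.succ_eq_add_one] at h4
  have hb : ∀ n, ‖(y n : ℂ) + I‖ ≤ 2 * y n := by
    intro n
    refine (norm_add_le _ _).trans ?_
    rw [norm_I, Complex.norm_real, Real.norm_eq_abs, abs_of_pos (y_pos n)]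
    linarith [y_ge n]
  have hp : ∀ n, 0 < ‖(y n : ℂ) + I‖ := fun n => norm_pos_iff.2 (yI_ne' n)
  rw [e1, norm_div, norm_mul, norm_mul, norm_mul, norm_I, norm_neg, Complex.norm_two,
    Complex.norm_real, Real.norm_eq_abs, abs_of_pos (by linarith), mul_one]
  have h5 := y_pos n
  have h6 := y_pos (n + 1)
  have h7 : 0 < y (n + 1) - y n := by linarith
  calc 1 / 2 * ((y (n + 1) - y n) / (y n * y (n + 1)))
      = 2 * (y (n + 1) - y n) / (2 * y n * (2 * y (n + 1))) := by field_simp
    _ ≤ _ := by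
        have := hp n
        have := hp (n + 1)
        have := hb n
        have := hb (n + 1)
        gcongr

theorem sqrt_gap_not_summable : ¬ Summable fun n : ℕ => Real.sqrt (th n - th (n + 1)) := by
  intro hs
  apply not_summable
  have h1 := hs.mul_left (Real.sqrt 2)
  apply Summable.of_nonneg_of_le (fun n => Real.sqrt_nonneg _) _ h1
  intro n
  rw [← Real.sqrt_mul (by norm_num)]
  apply Real.sqrt_le_sqrt
  have := gap_ge n
  linarith

/-- Angles in `(0, 2π)`. -/
theorem exp_two_pi_sub (φ : ℝ) : Complex.exp (((2 * Real.pi - φ : ℝ) : ℂ) * I) =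
    Complex.exp (((-φ : ℝ) : ℂ) * I) := by
  have : ((2 * Real.pi - φ : ℝ) : ℂ) * I = ((-φ : ℝ) : ℂ) * I + 2 * Real.pi * I := by
    push_cast
    ring
  rw [this, Complex.exp_add, Complex.exp_two_pi_mul_I, mul_one]

theorem exp_not_mem {φ : ℝ} {n : ℕ} (h1 : th (n + 1) < φ) (h2 : φ < th n) :
    Complex.exp (((-φ : ℝ) : ℂ) * I) ∉ E := by
  have hp := th_pos (n + 1)
  have hl := th_lt n
  have harg : ∀ a : ℝ, 0 ≤ a → a < Real.pi → Complex.arg (Complex.exp (((-a : ℝ) : ℂ) * I)) = -a := by
    intro a ha1 ha2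
    rw [Complex.arg_exp_mul_I]
    rw [toIocMod_eq_self]
    constructor
    · linarith
    · have := Real.pi_pos
      linarith
  have hφ := harg φ (by linarith) (by linarith)
  rintro (h | ⟨m, hm⟩)
  · rw [h, Complex.arg_one] at hφ
    linarith
  · rw [← exp_th] at hm
    have h3 := harg (th m) (th_pos m).le (th_lt m)
    rw [hm, hφ] at h3
    have h4 : φ = th m := by linarith
    rw [h4] at h1 h2
    have h5 := th_anti.lt_iff_gt.1 h1
    have h6 := th_anti.lt_iff_gt.1 h2
    omega

theorem infDist_le {φ : ℝ} {n : ℕ} (h1 : th (n + 1) < φ) (h2 : φ < th n) :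
    Metric.infDist (Complex.exp (((-φ : ℝ) : ℂ) * I)) E ≤ th n - th (n + 1) := by
  have h3 : xx n ∈ E := Or.inr ⟨n, rfl⟩
  refine (Metric.infDist_le_dist_of_mem h3).trans ?_
  rw [dist_eq_norm, ← exp_th]
  refine (norm_exp_sub _ _).trans ?_
  rw [abs_of_pos (by linarith)]
  linarith

theorem infDist_pos {z : ℂ} (h : z ∉ E) : 0 < Metric.infDist z E := by
  have hne : E.Nonempty := ⟨1, Or.inl rfl⟩
  exact (E_compact.isClosed.notMem_iff_infDist_pos hne).1 h

/-- The integral diverges. -/
theorem lint_top : ∫⁻ θ in Ioc 0 (2 * Real.pi),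
    ENNReal.ofReal (Metric.infDist (Complex.exp ((θ : ℂ) * I)) E ^ (-(1 / 2 : ℝ))) = ⊤ := by
  set S : ℕ → Set ℝ := fun n => Ioo (2 * Real.pi - th n) (2 * Real.pi - th (n + 1)) with hS
  have hdisj : Pairwise (Function.onFun Disjoint S) := by
    intro m n hmn
    have hmain : ∀ m n : ℕ, m < n → Disjoint (S m) (S n) := by
      intro m n h
      rw [Set.disjoint_left]
      intro a ha hb
      simp only [hS, mem_Ioo] at ha hb
      have h3 : th n ≤ th (m + 1) := th_anti.antitone (by omega)
      linarith [ha.2, hb.1]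
    rcases lt_or_gt_of_ne hmn with h | h
    · exact hmain m n h
    · exact (hmain n m h).symm
  have hsub : (⋃ n, S n) ⊆ Ioc 0 (2 * Real.pi) := by
    intro a ha
    obtain ⟨n, hn⟩ := mem_iUnion.1 ha
    simp only [hS, mem_Ioo] at hn
    have := th_pos (n + 1)
    have := th_lt n
    have := Real.pi_pos
    constructor <;> linarith [hn.1, hn.2]
  have h1 : ∫⁻ θ in ⋃ n, S n,
      ENNReal.ofReal (Metric.infDist (Complex.exp ((θ : ℂ) * I)) E ^ (-(1 / 2 : ℝ))) = ⊤ := by
    rw [lintegral_iUnion (fun n => measurableSet_Ioo) hdisj]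
    have h2 : ∀ n, ENNReal.ofReal (Real.sqrt (th n - th (n + 1))) ≤ ∫⁻ θ in S n,
        ENNReal.ofReal (Metric.infDist (Complex.exp ((θ : ℂ) * I)) E ^ (-(1 / 2 : ℝ))) := by
      intro n
      have hg : 0 < th n - th (n + 1) := by
        have := th_anti (Nat.lt_succ_self n)
        rw [Nat.succ_eq_add_one] at this
        linarith
      calc ENNReal.ofReal (Real.sqrt (th n - th (n + 1)))
          = ∫⁻ θ in S n, ENNReal.ofReal ((th n - th (n + 1)) ^ (-(1 / 2 : ℝ))) := by
            rw [setLIntegral_const, hS]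
            simp only
            rw [Real.volume_Ioo]
            have e1 : 2 * Real.pi - th (n + 1) - (2 * Real.pi - th n) = th n - th (n + 1) := by ring
            rw [e1, ← ENNReal.ofReal_mul (by positivity)]
            congr 1
            rw [Real.sqrt_eq_rpow]
            nth_rewrite 3 [← Real.rpow_one (th n - th (n + 1))]
            rw [← Real.rpow_add hg]
            norm_num
        _ ≤ _ := by
            apply setLIntegral_mono' measurableSet_Ioo
            intro θ hθ
            simp only [mem_Ioo] at hθ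
            apply ENNReal.ofReal_le_ofReal
            set φ := 2 * Real.pi - θ with hφ
            have e2 : θ = 2 * Real.pi - φ := by rw [hφ]; ring
            rw [e2, exp_two_pi_sub]
            have a1 : th (n + 1) < φ := by rw [hφ]; linarith [hθ.2]
            have a2 : φ < th n := by rw [hφ]; linarith [hθ.1]
            apply Real.rpow_le_rpow_of_nonpos (infDist_pos (exp_not_mem a1 a2))
              (infDist_le a1 a2) (by norm_num)
    have h3 : ∑' n, ENNReal.ofReal (Real.sqrt (th n - th (n + 1))) = ⊤ := by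
      by_contra hne
      apply sqrt_gap_not_summable
      have h4 := ENNReal.summable_toReal hne
      refine h4.congr fun n => ?_
      rw [ENNReal.toReal_ofReal (Real.sqrt_nonneg _)]
    rw [eq_top_iff, ← h3]
    exact ENNReal.tsum_le_tsum h2
  rw [eq_top_iff, ← h1]
  exact lintegral_mono_set hsub

end Pool.Agent.V1179.Peak
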