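import Mathlib
import Pool.Agent.V1179.Peak.Diverge

set_option autoImplicit false

namespace Pool.Agent.V1179.Peak

open Filter Topology Complex Set MeasureTheory Metric

theorem an_iter {f : ℂ → ℂ} (hf : DifferentiableOn ℂ f (ball 0 1)) (n : ℕ) :
    AnalyticOnNhd ℂ (iteratedDeriv n f) (ball 0 1) := by
  rw [iteratedDeriv_eq_iterate]
  exact (hf.analyticOnNhd isOpen_ball).iterated_deriv n

theorem taylor_aux {f : ℂ → ℂ} (hf : DifferentiableOn ℂ f (ball 0 1)) {e : ℂ} (he : ‖e‖ = 1)
    (hE : ∀ n, Tendsto (iteratedDeriv n f) (𝓝[ball 0 1] e) (𝓝 0)) {n : ℕ} {M : ℝ}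
    (hM : ∀ z ∈ ball (0 : ℂ) 1, ‖iteratedDeriv n f z‖ ≤ M) (k : ℕ) (hk : k ≤ n) :
    ∀ z ∈ ball (0 : ℂ) 1, ‖iteratedDeriv (n - k) f z‖ ≤ M * ‖z - e‖ ^ k / k.factorial := by
  induction k with
  | zero => intro z hz; simpa using hM z hz
  | succ k ih =>
    intro z hz
    have ih' := ih (by omega)
    set g := iteratedDeriv (n - (k + 1)) f with hg
    have hg' : iteratedDeriv (n - k) f = deriv g := by
      rw [hg, ← iteratedDeriv_succ]
      congr 1
      omega
    rw [hg'] at ih'
    set r := ‖z - e‖ with hr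
    have hz1 : ‖z‖ < 1 := by simpa using hz
    have hM0 : 0 ≤ M := (norm_nonneg _).trans (hM z hz)
    -- the path
    have hpath : ∀ t : ℝ, 0 < t → t ≤ 1 → e + t * (z - e) ∈ ball (0 : ℂ) 1 := by
      intro t ht0 ht1
      rw [mem_ball_zero_iff]
      have h1 : e + t * (z - e) = ((1 - t : ℝ) : ℂ) * e + (t : ℂ) * z := by push_cast; ring
      rw [h1]
      refine (norm_add_le _ _).trans_lt ?_
      rw [norm_mul, norm_mul, Complex.norm_real, Complex.norm_real, Real.norm_eq_abs,
        Real.norm_eq_abs, abs_of_nonneg (by linarith), abs_of_pos ht0, he]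
      nlinarith
    have hgd : ∀ w ∈ ball (0 : ℂ) 1, HasDerivAt g (deriv g w) w := by
      intro w hw
      exact ((an_iter hf _) w hw).differentiableAt.hasDerivAt
    have hmain : ∀ s : ℝ, 0 < s → s < 1 →
        ‖g z‖ ≤ ‖g (e + s * (z - e))‖ + M * r ^ (k + 1) / (k + 1).factorial := by
      intro s hs0 hs1
      have hder : ∀ t : ℝ, 0 < t → t ≤ 1 → HasDerivAt (fun t : ℝ => g (e + t * (z - e)))
          (deriv g (e + t * (z - e)) * (z - e)) t := by
        intro t ht0 ht1
        have h1 : HasDerivAt (fun t : ℝ => e + (t : ℂ) * (z - e)) (z - e) t := by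
          have h2 : HasDerivAt (fun t : ℝ => (t : ℂ)) 1 t := Complex.ofRealCLM.hasDerivAt
          have h3 := (h2.mul_const (z - e)).const_add e
          rwa [one_mul] at h3
        exact (hgd _ (hpath t ht0 ht1)).comp t h1
      have hkey := image_norm_le_of_norm_deriv_right_le_deriv_boundary
        (f := fun t : ℝ => g (e + t * (z - e)))
        (f' := fun t => deriv g (e + t * (z - e)) * (z - e)) (a := s) (b := 1)
        (B := fun t => ‖g (e + s * (z - e))‖ + M * r ^ (k + 1) / (k + 1).factorial * t ^ (k + 1))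
        (B' := fun t => M * r ^ (k + 1) / (k + 1).factorial * (((k + 1 : ℕ) : ℝ) * t ^ k))
        ?_ ?_ ?_ ?_ ?_ (right_mem_Icc.2 hs1.le)
      · simp only [Complex.ofReal_one, one_mul, one_pow, mul_one] at hkey
        rwa [show e + (z - e) = z by ring] at hkey
      · intro t ht
        exact (hder t (hs0.trans_le ht.1) ht.2).continuousAt.continuousWithinAt
      · intro t ht
        exact (hder t (hs0.trans_le ht.1) ht.2.le).hasDerivWithinAt
      · have : 0 ≤ M * r ^ (k + 1) / (k + 1).factorial * s ^ (k + 1) := by positivity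
        linarith
      · intro t
        have h1 := (hasDerivAt_pow (k + 1) t).const_mul (M * r ^ (k + 1) / (k + 1).factorial)
        have h2 := h1.const_add (‖g (e + s * (z - e))‖)
        simpa using h2
      · intro t ht
        have ht0 : 0 < t := hs0.trans_le ht.1
        have h1 := ih' _ (hpath t ht0 ht.2.le)
        have h2 : ‖e + t * (z - e) - e‖ = t * r := by
          rw [add_sub_cancel_left, norm_mul, Complex.norm_real, Real.norm_eq_abs, abs_of_pos ht0]
        rw [h2] at h1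
        rw [norm_mul, ← hr]
        have hk0 : ((k + 1 : ℕ) : ℝ) ≠ 0 := by positivity
        have hk1 : ((k.factorial : ℕ) : ℝ) ≠ 0 := by positivity
        calc ‖deriv g (e + t * (z - e))‖ * r ≤ (M * (t * r) ^ k / k.factorial) * r := by gcongr
          _ = _ := by
            rw [Nat.factorial_succ, Nat.cast_mul]
            field_simp
            ring
    -- limit
    have hlim : Tendsto (fun s : ℝ => g (e + s * (z - e))) (𝓝[>] 0) (𝓝 0) := by
      refine (hE (n - (k + 1))).comp ?_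
      rw [tendsto_nhdsWithin_iff]
      constructor
      · have h1 : Continuous fun s : ℝ => e + (s : ℂ) * (z - e) := by fun_prop
        have h2 := (h1.tendsto 0).mono_left (nhdsWithin_le_nhds (s := Ioi 0))
        simpa using h2
      · filter_upwards [Ioo_mem_nhdsGT (show (0 : ℝ) < 1 by norm_num)] with s hs
        exact hpath s hs.1 hs.2.le
    have hlim2 : Tendsto (fun s : ℝ => ‖g (e + s * (z - e))‖ + M * r ^ (k + 1) / (k + 1).factorial)
        (𝓝[>] 0) (𝓝 (0 + M * r ^ (k + 1) / (k + 1).factorial)) := by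
      have := hlim.norm
      rw [norm_zero] at this
      exact this.add_const _
    rw [zero_add] at hlim2
    refine ge_of_tendsto hlim2 ?_
    filter_upwards [Ioo_mem_nhdsGT (show (0 : ℝ) < 1 by norm_num)] with s hs
    exact hmain s hs.1 hs.2

theorem rpow_three (n : ℕ) : ((n.factorial : ℕ) : ℝ) ^ (1 + 1 / (1 / 2 : ℝ)) =
    ((n.factorial : ℕ) : ℝ) ^ 3 := by
  rw [← Real.rpow_natCast]
  norm_num

theorem decay_aux {f : ℂ → ℂ} (hf : DifferentiableOn ℂ f (ball 0 1)) {C : ℝ} (hC1 : 1 ≤ C)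
    (hC : ∀ n : ℕ, ∀ z ∈ ball (0 : ℂ) 1, ‖iteratedDeriv n f z‖ ≤
      C ^ (n + 1) * (n.factorial : ℝ) ^ 3) {e : ℂ} (he : ‖e‖ = 1)
    (hE : ∀ n, Tendsto (iteratedDeriv n f) (𝓝[ball 0 1] e) (𝓝 0)) {z : ℂ}
    (hz : z ∈ ball (0 : ℂ) 1) :
    ‖f z‖ ≤ C * Real.exp (1 - (Real.exp 1 * C) ^ (-(1 / 2 : ℝ)) * ‖z - e‖ ^ (-(1 / 2 : ℝ))) := by
  have hz1 : ‖z‖ < 1 := by simpa using hz
  have hr0 : 0 < ‖z - e‖ := by
    rw [norm_pos_iff, sub_ne_zero]
    rintro rfl
    linarith
  set r := ‖z - e‖ with hr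
  have hee : 0 < Real.exp 1 * C := by positivity
  set q := (Real.exp 1 * C) ^ (-(1 / 2 : ℝ)) * r ^ (-(1 / 2 : ℝ)) with hq
  have hq0 : 0 < q := by positivity
  have hq2 : q ^ 2 * (Real.exp 1 * C * r) = 1 := by
    rw [hq, ← Real.mul_rpow hee.le hr0.le, ← Real.rpow_natCast, ← Real.rpow_mul (by positivity)]
    norm_num
    rw [Real.rpow_neg_one]
    field_simp
  set n := ⌊q⌋₊ with hn
  have hnq : (n : ℝ) ≤ q := Nat.floor_le hq0.le
  have hqn : q < n + 1 := Nat.lt_floor_add_one q
  have h1 := taylor_aux hf he hE (hC n) n le_rfl z hz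
  rw [Nat.sub_self, iteratedDeriv_zero, ← hr] at h1
  have hfac : ((n.factorial : ℕ) : ℝ) ≤ (n : ℝ) ^ n := by exact_mod_cast Nat.factorial_le_pow n
  have hf0 : (0 : ℝ) < (n.factorial : ℝ) := by positivity
  have h2 : C ^ (n + 1) * (n.factorial : ℝ) ^ 3 * r ^ n / n.factorial ≤
      C * (C * (n : ℝ) ^ 2 * r) ^ n := by
    calc C ^ (n + 1) * (n.factorial : ℝ) ^ 3 * r ^ n / n.factorial
        = C ^ (n + 1) * (n.factorial : ℝ) ^ 2 * r ^ n := by field_simp
      _ ≤ C ^ (n + 1) * ((n : ℝ) ^ n) ^ 2 * r ^ n := by gcongr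
      _ = _ := by ring
  have h3 : C * (n : ℝ) ^ 2 * r ≤ Real.exp (-1) := by
    have a1 : C * (n : ℝ) ^ 2 * r ≤ C * q ^ 2 * r := by gcongr
    have a2 : Real.exp (-1) * (Real.exp 1 * (C * q ^ 2 * r)) = C * q ^ 2 * r := by
      rw [← mul_assoc, ← Real.exp_add]
      norm_num
    have a3 : Real.exp 1 * (C * q ^ 2 * r) = 1 := by linear_combination hq2
    rw [a3, mul_one] at a2
    linarith
  have h4 : (C * (n : ℝ) ^ 2 * r) ^ n ≤ Real.exp (-(n : ℝ)) := by
    calc (C * (n : ℝ) ^ 2 * r) ^ n ≤ Real.exp (-1) ^ n := by gcongr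
      _ = _ := by
        rw [← Real.exp_nat_mul]
        congr 1
        ring
  calc ‖f z‖ ≤ _ := h1
    _ ≤ _ := h2
    _ ≤ C * Real.exp (-(n : ℝ)) := by gcongr
    _ ≤ _ := by
      gcongr
      linarith

/-- The distance power. -/
noncomputable def dl (z : ℂ) : ℝ := infDist z E ^ (-(1 / 2 : ℝ))

theorem dl_nonneg (z : ℂ) : 0 ≤ dl z := Real.rpow_nonneg infDist_nonneg _

theorem ball_notMem {z : ℂ} (hz : ‖z‖ < 1) : z ∉ E := by
  intro h
  have := E_sub h
  rw [mem_sphere_zero_iff_norm] at this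
  linarith

theorem dl_cont {z : ℂ} (hz : z ∉ E) : ContinuousAt dl z := by
  unfold dl
  apply ContinuousAt.rpow_const (continuous_infDist_pt E).continuousAt
  left
  exact (infDist_pos hz).ne'

theorem decay {f : ℂ → ℂ} (hf : DifferentiableOn ℂ f (ball 0 1)) {C : ℝ}
    (hC : ∀ n : ℕ, ∀ z ∈ ball (0 : ℂ) 1, ‖iteratedDeriv n f z‖ ≤
      C ^ (n + 1) * (n.factorial : ℝ) ^ (1 + 1 / (1 / 2 : ℝ)))
    (hE : ∀ n, ∀ e ∈ E, Tendsto (iteratedDeriv n f) (𝓝[ball 0 1] e) (𝓝 0)) :
    ∃ A c : ℝ, 0 < A ∧ 0 < c ∧ ∀ z ∈ ball (0 : ℂ) 1, ‖f z‖ ≤ A * Real.exp (-(c * dl z)) := by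
  set C' := |C| + 1 with hC'
  have hC1 : 1 ≤ C' := by rw [hC']; linarith [abs_nonneg C]
  have hCC : ∀ n : ℕ, ∀ z ∈ ball (0 : ℂ) 1, ‖iteratedDeriv n f z‖ ≤
      C' ^ (n + 1) * (n.factorial : ℝ) ^ 3 := by
    intro n z hz
    have h1 : C ^ (n + 1) ≤ C' ^ (n + 1) := by
      calc C ^ (n + 1) ≤ |C ^ (n + 1)| := le_abs_self _
        _ = |C| ^ (n + 1) := abs_pow _ _
        _ ≤ (|C| + 1) ^ (n + 1) := by
          gcongr
          linarith
    refine (hC n z hz).trans ?_
    rw [rpow_three]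
    exact mul_le_mul_of_nonneg_right h1 (by positivity)
  refine ⟨C' * Real.exp 1, (Real.exp 1 * C') ^ (-(1 / 2 : ℝ)), by positivity, by positivity, ?_⟩
  intro z hz
  obtain ⟨e, he, hde⟩ := E_compact.exists_infDist_eq_dist ⟨1, Or.inl rfl⟩ z
  have he1 : ‖e‖ = 1 := by simpa using E_sub he
  have h1 := decay_aux hf hC1 hCC he1 (fun n => hE n e he) hz
  unfold dl
  rw [hde, dist_eq_norm]
  refine h1.trans (le_of_eq ?_)
  rw [mul_assoc, ← Real.exp_add]
  congr 1

open MeromorphicOn in
theorem jensen_lower {f : ℂ → ℂ} (hf : DifferentiableOn ℂ f (ball 0 1)) :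
    ∃ K : ℝ, ∀ R : ℝ, 1 / 2 ≤ R → R < 1 → -K ≤ Real.circleAverage (Real.log ‖f ·‖) 0 R := by
  have hfa := hf.analyticOnNhd isOpen_ball
  refine ⟨|((meromorphicOrderAt f 0).untop₀ : ℝ)| * Real.log 2 +
    |Real.log ‖meromorphicTrailingCoeffAt f 0‖|, ?_⟩
  intro R h1 h2
  have hR : |R| = R := abs_of_pos (by linarith)
  have hsub : closedBall (0 : ℂ) |R| ⊆ ball 0 1 := by
    rw [hR]
    exact closedBall_subset_ball h2
  have hfR : AnalyticOnNhd ℂ f (closedBall 0 |R|) := hfa.mono hsub
  rw [MeromorphicOn.circleAverage_log_norm (by linarith) hfR.meromorphicOn]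
  have e1 : 0 ≤ ∑ᶠ u, (divisor f (closedBall 0 |R|) u : ℝ) * Real.log (R * ‖0 - u‖⁻¹) := by
    apply finsum_nonneg
    intro u
    by_cases hu : u ∈ closedBall (0 : ℂ) |R|
    · apply mul_nonneg
      · exact_mod_cast hfR.divisor_nonneg u
      · by_cases hu0 : u = 0
        · simp [hu0]
        · apply Real.log_nonneg
          rw [zero_sub, norm_neg]
          have h3 : ‖u‖ ≤ R := by simpa [hR] using hu
          have h4 : 0 < ‖u‖ := norm_pos_iff.2 hu0
          rw [← div_eq_mul_inv, le_div_iff₀ h4]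
          linarith
    · rw [Function.locallyFinsuppWithin.apply_eq_zero_of_notMem _ hu]
      simp
  have e2 : divisor f (closedBall 0 |R|) 0 = (meromorphicOrderAt f 0).untop₀ := by
    rw [MeromorphicOn.divisor_apply hfR.meromorphicOn (by simp)]
  rw [e2]
  have e3 : |Real.log R| ≤ Real.log 2 := by
    rw [abs_of_nonpos (Real.log_nonpos (by linarith) h2.le), ← Real.log_inv]
    apply Real.log_le_log (by positivity)
    rw [inv_le_comm₀ (by linarith) (by norm_num)]
    linarith
  have e4 : -(|((meromorphicOrderAt f 0).untop₀ : ℝ)| * Real.log 2) ≤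
      ((meromorphicOrderAt f 0).untop₀ : ℝ) * Real.log R := by
    have := neg_abs_le (((meromorphicOrderAt f 0).untop₀ : ℝ) * Real.log R)
    rw [abs_mul] at this
    have h5 : |((meromorphicOrderAt f 0).untop₀ : ℝ)| * |Real.log R| ≤
      |((meromorphicOrderAt f 0).untop₀ : ℝ)| * Real.log 2 := by gcongr
    linarith
  have e5 := neg_abs_le (Real.log ‖meromorphicTrailingCoeffAt f 0‖)
  linarith

theorem dl_circleIntegrable {R : ℝ} (h0 : 0 < R) (h2 : R < 1) : CircleIntegrable dl 0 R := by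
  apply ContinuousOn.circleIntegrable h0.le
  intro z hz
  have : ‖z‖ = R := by simpa using hz
  exact (dl_cont (ball_notMem (by linarith))).continuousWithinAt

theorem circ_bound {f : ℂ → ℂ} (hf : DifferentiableOn ℂ f (ball 0 1)) {x₀ : ℂ}
    (hx₀ : x₀ ∈ ball (0 : ℂ) 1) (hfx : f x₀ ≠ 0) {A c : ℝ} (hA : 0 < A)
    (hd : ∀ z ∈ ball (0 : ℂ) 1, ‖f z‖ ≤ A * Real.exp (-(c * dl z))) {R : ℝ} (h0 : 0 < R)
    (h2 : R < 1) :
    Real.circleAverage (Real.log ‖f ·‖) 0 R ≤ Real.log A - c * Real.circleAverage dl 0 R := by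
  classical
  have hfa := hf.analyticOnNhd isOpen_ball
  have hR : |R| = R := abs_of_pos h0
  have hsph : sphere (0 : ℂ) |R| ⊆ ball 0 1 := by
    rw [hR]
    exact sphere_subset_closedBall.trans (closedBall_subset_ball h2)
  have hcod : f ⁻¹' {0}ᶜ ∈ codiscreteWithin (sphere (0 : ℂ) |R|) := by
    have h1 := hfa.preimage_zero_mem_codiscreteWithin hfx hx₀
      ((convex_ball (0 : ℂ) 1).isConnected ⟨x₀, hx₀⟩)
    exact codiscreteWithin_mono hsph h1
  set v : ℂ → ℝ := fun z => if f z = 0 then Real.log A - c * dl z else Real.log ‖f z‖ with hv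
  have hcongr : (fun z => Real.log ‖f z‖) =ᶠ[codiscreteWithin (sphere (0 : ℂ) |R|)] v := by
    filter_upwards [hcod] with z hz
    have : f z ≠ 0 := by simpa using hz
    simp only [hv]
    rw [if_neg this]
  have hint : CircleIntegrable (fun z => Real.log ‖f z‖) 0 R :=
    (hfa.mono hsph).meromorphicOn.circleIntegrable_log_norm
  have hintv : CircleIntegrable v 0 R := hint.congr_codiscreteWithin hcongr
  rw [Real.circleAverage_congr_codiscreteWithin hcongr h0.ne']
  have hdli := dl_circleIntegrable h0 h2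
  have hRHS : Real.circleAverage (fun z => Real.log A - c * dl z) 0 R =
      Real.log A - c * Real.circleAverage dl 0 R := by
    have e1 : (fun z => Real.log A - c * dl z) = (fun _ => Real.log A) - (c • dl) := by
      ext z; simp
    rw [e1, Real.circleAverage_sub (circleIntegrable_const _ _ _) (hdli.const_smul),
      Real.circleAverage_const, Real.circleAverage_smul, smul_eq_mul]
  rw [← hRHS]
  apply Real.circleAverage_mono hintv
  · have e1 : (fun z => Real.log A - c * dl z) = (fun _ => Real.log A) - (c • dl) := by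
      ext z; simp
    rw [e1]
    exact (circleIntegrable_const _ _ _).sub hdli.const_smul
  · intro z hz
    simp only [hv]
    split_ifs with h
    · exact le_rfl
    · have h3 := hd z (hsph hz)
      have h4 := Real.log_le_log (norm_pos_iff.2 h) h3
      rw [Real.log_mul hA.ne' (Real.exp_pos _).ne', Real.log_exp] at h4
      linarith

theorem not_gevrey {f : ℂ → ℂ} (hf : DifferentiableOn ℂ f (ball 0 1)) {C : ℝ}
    (hC : ∀ n : ℕ, ∀ z ∈ ball (0 : ℂ) 1, ‖iteratedDeriv n f z‖ ≤
      C ^ (n + 1) * (n.factorial : ℝ) ^ (1 + 1 / (1 / 2 : ℝ)))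
    (hE : ∀ n, ∀ e ∈ E, Tendsto (iteratedDeriv n f) (𝓝[ball 0 1] e) (𝓝 0)) :
    ∀ z ∈ ball (0 : ℂ) 1, f z = 0 := by
  by_contra hcon
  push Not at hcon
  obtain ⟨x₀, hx₀, hfx⟩ := hcon
  obtain ⟨A, c, hA, hc, hd⟩ := decay hf hC hE
  obtain ⟨K, hK⟩ := jensen_lower hf
  set B := (Real.log A + K) / c with hB
  have hbound : ∀ R : ℝ, 1 / 2 ≤ R → R < 1 → Real.circleAverage dl 0 R ≤ B := by
    intro R h1 h2
    have a1 := hK R h1 h2
    have a2 := circ_bound hf hx₀ hfx hA hd (by linarith : 0 < R) h2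
    rw [hB, le_div_iff₀ hc]
    linarith
  set Rn : ℕ → ℝ := fun n => 1 - 1 / ((n : ℝ) + 2) with hRn
  have hRn1 : ∀ n, 1 / 2 ≤ Rn n := by
    intro n
    have : 1 / ((n : ℝ) + 2) ≤ 1 / 2 := by
      apply one_div_le_one_div_of_le (by norm_num)
      have : (0 : ℝ) ≤ n := Nat.cast_nonneg n
      linarith
    simp only [hRn]
    linarith
  have hRn2 : ∀ n, Rn n < 1 := by
    intro n
    have : 0 < 1 / ((n : ℝ) + 2) := by positivity
    simp only [hRn]
    linarith
  have hRnt : Tendsto Rn atTop (𝓝 1) := by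
    have h1 : Tendsto (fun n : ℕ => 1 / ((n : ℝ) + 2)) atTop (𝓝 0) := by
      have : Tendsto (fun n : ℕ => (n : ℝ) + 2) atTop atTop :=
        tendsto_atTop_add_const_right atTop (2 : ℝ) tendsto_natCast_atTop_atTop
      exact tendsto_const_nhds.div_atTop this
    have h2 := h1.const_sub 1
    rw [sub_zero] at h2
    exact h2
  have hlint : ∀ n, ∫⁻ θ in Ioc 0 (2 * Real.pi), ENNReal.ofReal (dl (circleMap 0 (Rn n) θ)) ≤
      ENNReal.ofReal (2 * Real.pi * B) := by
    intro n
    have hci := dl_circleIntegrable (by linarith [hRn1 n] : 0 < Rn n) (hRn2 n)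
    have h1 := hbound (Rn n) (hRn1 n) (hRn2 n)
    rw [Real.circleAverage_def, smul_eq_mul, inv_mul_le_iff₀ Real.two_pi_pos,
      intervalIntegral.integral_of_le Real.two_pi_pos.le] at h1
    unfold CircleIntegrable at hci
    rw [intervalIntegrable_iff_integrableOn_Ioc_of_le Real.two_pi_pos.le] at hci
    rw [← ofReal_integral_eq_lintegral_ofReal hci
      (Eventually.of_forall fun θ => dl_nonneg _)]
    exact ENNReal.ofReal_le_ofReal h1
  have hfatou : ∫⁻ θ in Ioc 0 (2 * Real.pi), ENNReal.ofReal (dl (Complex.exp ((θ : ℂ) * I))) ≤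
      ENNReal.ofReal (2 * Real.pi * B) := by
    calc ∫⁻ θ in Ioc 0 (2 * Real.pi), ENNReal.ofReal (dl (Complex.exp ((θ : ℂ) * I)))
        ≤ ∫⁻ θ in Ioc 0 (2 * Real.pi), liminf
          (fun n => ENNReal.ofReal (dl (circleMap 0 (Rn n) θ))) atTop := by
          apply lintegral_mono
          intro θ
          simp only
          by_cases hθ : Complex.exp ((θ : ℂ) * I) ∈ E
          · have : dl (Complex.exp ((θ : ℂ) * I)) = 0 := by
              unfold dl
              rw [infDist_zero_of_mem hθ, Real.zero_rpow (by norm_num)]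
            rw [this]
            simp
          · have h1 : Tendsto (fun n => circleMap 0 (Rn n) θ) atTop (𝓝 (Complex.exp ((θ : ℂ) * I))) := by
              have h2 : Tendsto (fun n => ((Rn n : ℝ) : ℂ)) atTop (𝓝 ((1 : ℝ) : ℂ)) :=
                (Complex.continuous_ofReal.tendsto 1).comp hRnt
              have h3 := h2.mul_const (Complex.exp ((θ : ℂ) * I))
              simp only [circleMap, zero_add]
              simpa using h3
            have h4 := (ENNReal.continuous_ofReal.continuousAt.comp (dl_cont hθ)).tendsto.comp h1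
            exact h4.liminf_eq.symm.le
      _ ≤ liminf (fun n => ∫⁻ θ in Ioc 0 (2 * Real.pi),
          ENNReal.ofReal (dl (circleMap 0 (Rn n) θ))) atTop := by
          apply lintegral_liminf_le
          intro n
          apply ENNReal.measurable_ofReal.comp
          unfold dl
          apply Measurable.pow_const
          exact (continuous_infDist_pt E).measurable.comp (continuous_circleMap 0 (Rn n)).measurable
      _ ≤ ENNReal.ofReal (2 * Real.pi * B) := by
          apply liminf_le_of_le (by isBoundedDefault)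
          intro b hb
          obtain ⟨n, hn⟩ := hb.exists
          exact hn.trans (hlint n)
  have hdl : ∀ z, dl z = infDist z E ^ (-(1 / 2 : ℝ)) := fun z => rfl
  simp_rw [hdl] at hfatou
  rw [lint_top] at hfatou
  exact absurd hfatou (by simp)

end Pool.Agent.V1179.Peak
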